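import Pool.Agent.P.MP_d66c6d_pr.C.Iface

/-! Step CGQ of the carpet project. -/

namespace Pool.Agent.P.MP_d66c6d_pr

open MeasureTheory ProbabilityTheory Set Metric Filter Topology
open scoped ENNReal ComplexConjugate

namespace CgqA

theorem meas {G : ℂ → ℂ → ℝ≥0∞} {φ : ℂ → ℝ≥0∞} (h : Measurable fun p : ℂ × ℂ => G p.1 p.2)
    (hφ : Measurable φ) : Measurable fun z => ∫⁻ y, G z y * φ y :=
  Measurable.lintegral_prod_right' (f := fun p : ℂ × ℂ => G p.1 p.2 * φ p.2)
    (h.mul (hφ.comp measurable_snd))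

theorem res {a b c Q φ : ℂ → ℝ≥0∞} {G : ℂ → ℂ → ℝ≥0∞} (hb : Measurable b) (hc : Measurable c)
    (hQ : Measurable Q) (hφ : Measurable φ) (hG : Measurable fun p : ℂ × ℂ => G p.1 p.2)
    (h : ∀ y, a y = b y + ∫⁻ z, c z * (Q z * G z y)) :
    ∫⁻ y, a y * φ y = (∫⁻ y, b y * φ y) + ∫⁻ z, c z * (Q z * ∫⁻ y, G z y * φ y) := by
  have m : Measurable fun p : ℂ × ℂ => c p.2 * (Q p.2 * G p.2 p.1) :=
    (hc.comp measurable_snd).mul ((hQ.comp measurable_snd).mul (hG.comp measurable_swap))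
  have e : ∀ y, (∫⁻ z, c z * (Q z * G z y)) * φ y = ∫⁻ z, c z * (Q z * G z y) * φ y := fun y =>
    (lintegral_mul_const _ (m.comp measurable_prodMk_left)).symm
  simp only [h, add_mul, e]
  rw [lintegral_add_left (hb.fun_mul hφ), lintegral_lintegral_swap
    (m.mul (hφ.comp measurable_fst)).aemeasurable]
  congr 1
  refine lintegral_congr fun z => ?_
  have k : Measurable fun y => G z y * φ y := (hG.comp measurable_prodMk_left).mul hφ
  rw [← lintegral_const_mul _ k, ← lintegral_const_mul _ (k.const_mul _)]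
  simp only [mul_assoc]

theorem sup {a k : ℂ → ℝ≥0∞} (ha : Measurable a) (hk : Measurable k) :
    ∫⁻ y, a y * k y = ⨆ n : ℕ, ∫⁻ y, a y * min (k y) n := by
  rw [← lintegral_iSup (f := fun (n : ℕ) y => a y * min (k y) n)
    (fun n => ha.mul (hk.min measurable_const)) fun m n h y => by dsimp only; gcongr]
  refine lintegral_congr fun y => ?_
  rw [← ENNReal.mul_iSup, ← inf_iSup_eq, ENNReal.iSup_natCast, inf_top_eq]

theorem uniq {b Q φ u : ℂ → ℝ≥0∞} {G : ℂ → ℂ → ℝ≥0∞} {O : Set ℂ} {x : ℂ} (hb : Measurable b)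
    (hQ : Measurable Q) (hφ : Measurable φ) (hu : Measurable u)
    (hG : Measurable fun p : ℂ × ℂ => G p.1 p.2) (h0 : ∀ z ∉ O, b z = 0) (hx : x ∈ O)
    (h : ∀ y, G x y = b y + ∫⁻ z, b z * (Q z * G z y))
    (e : ∀ z ∈ O, ∫⁻ y, G z y * φ y = u z + ∫⁻ y, G z y * (Q y * u y))
    (fin : ∫⁻ y, G x y * φ y ≠ ∞) : ∫⁻ y, b y * φ y = u x := by
  have e1 := res hb hb hQ hφ hG h
  have e2 := res hb hb hQ (hQ.fun_mul hu) hG h
  have e3 : ∫⁻ z, b z * (Q z * ∫⁻ y, G z y * φ y) = ∫⁻ y, G x y * (Q y * u y) := by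
    rw [e2, ← lintegral_add_left (hb.fun_mul (hQ.fun_mul hu))]
    refine lintegral_congr fun z => ?_
    by_cases hz : z ∈ O
    · rw [e z hz, mul_add, mul_add]
    · simp [h0 z hz]
  rw [e3, e x hx] at e1
  rw [e x hx] at fin
  exact ((ENNReal.add_left_inj (ENNReal.add_ne_top.1 fin).2).1 e1).symm

end CgqA

open CgqA

theorem p_CGQ (hCGZ : S_CGZ) (hDUH : S_DUH) (hCONF : S_CONF) (hKK : S_KK) (hFIN : S_FIN) :
    S_CGQ := by
  intro ν hν D f g hf ρ hρ q M hq hM x hx k hk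
  have := hν.prob
  obtain ⟨c1, -, -, c2⟩ := hCONF D f g hf
  have hO := (c2 ρ hρ).1
  have mQ : Measurable fun z => q (f z) * jac f z :=
    (hq.measurable.comp hf.mf).mul (measurable_jac f)
  have cQ : ContinuousOn (fun z => q (f z) * jac f z) (dm D f ρ) :=
    ((hq.comp_continuousOn hf.diff.continuousOn).mul c1).mono inter_subset_left
  have m1 : Measurable (GG ν (dm D f ρ) (fun z => q (f z) * jac f z) x) :=
    measurable_GG ν hO mQ measurable_const measurable_id
  have m2 : Measurable fun p : ℂ × ℂ => GG ν (ball 0 ρ) q p.1 p.2 :=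
    measurable_GG ν isOpen_ball hq.measurable measurable_fst measurable_snd
  have m2' : ∀ x, Measurable (GG ν (ball 0 ρ) q x) := fun x => m2.comp measurable_prodMk_left
  have m3 : ∀ x, Measurable (GG ν (ball 0 ρ) 0 x) := fun x =>
    measurable_GG ν isOpen_ball measurable_const measurable_const measurable_id
  have mV := (measurable_jac f).ennreal_ofReal
  have mq := hq.measurable.ennreal_ofReal
  obtain ⟨C, hC, hC'⟩ := hFIN ν hν (ball 0 ρ) isOpen_ball isBounded_ball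
  simp only [← mul_assoc]
  rw [sup (k := fun y => k (f y)) (m1.fun_mul mV) (hk.comp hf.mf), sup (m2' _) hk]
  refine iSup_congr fun n => ?_
  simp only [mul_assoc]
  have mk : Measurable fun w => min (k w) n := hk.min measurable_const
  have mu := meas m2 mk
  have z1 := fun x hx => hCGZ ν hν D f g hf ρ hρ x hx _ mk
  refine uniq (G := GG ν (dm D f ρ) 0) (u := fun z => ∫⁻ w, GG ν (ball 0 ρ) q (f z) w * min (k w) n)
    m1 mQ.ennreal_ofReal (mV.mul (mk.comp hf.mf)) (mu.comp hf.mf)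
    (measurable_GG ν hO measurable_const measurable_fst measurable_snd)
    (fun z hz => (hKK ν hν _ hO).2.2.2.2.1 _ _ _ (Or.inr hz)) hx
    (fun y => (hDUH ν hν _ _ hO cQ mQ (fun z => mul_nonneg (hM _).1 (jac_nonneg f z)) x y).2)
    (fun z hz => ?_) ?_
  · rw [z1 z hz, res (m2' _) (m3 _) mq mk m2 fun y => (hDUH ν hν (ball 0 ρ) q isOpen_ball
      hq.continuousOn hq.measurable (fun z => (hM z).1) (f z) y).1,
      ← hCGZ ν hν D f g hf ρ hρ z hz _ (mq.fun_mul mu)]
    simp only [ENNReal.ofReal_mul (hM _).1, mul_assoc, mul_left_comm]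
  · rw [z1 x hx]
    refine ne_top_of_le_ne_top (ENNReal.mul_ne_top hC (ENNReal.natCast_ne_top n)) ?_
    calc _ ≤ ∫⁻ w, GG ν (ball 0 ρ) 0 (f x) w * n := lintegral_mono fun w => by gcongr; simp
      _ ≤ _ := by rw [lintegral_mul_const _ (m3 _)]; gcongr; exact hC' _

end Pool.Agent.P.MP_d66c6d_pr
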