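import Pool.Agent.P.MP_d66c6d_pr.C.Iface

/-! Step CGZ of the carpet project. -/

namespace Pool.Agent.P.MP_d66c6d_pr

open MeasureTheory ProbabilityTheory Set Metric Filter Topology
open scoped ENNReal ComplexConjugate

namespace CgzA

/-- the image of a weighted measure -/
noncomputable def im (G : ℂ → ℝ≥0∞) (f : ℂ → ℂ) : Measure ℂ :=
  (((volume : Measure ℂ).withDensity G).withDensity fun y => ENNReal.ofReal (jac f y)).map f

variable {G : ℂ → ℝ≥0∞} {f : ℂ → ℂ}

theorem lint (hG : Measurable G) (hf : Measurable f) {k : ℂ → ℝ≥0∞} (hk : Measurable k) :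
    ∫⁻ w, k w ∂im G f = ∫⁻ y, G y * (ENNReal.ofReal (jac f y) * k (f y)) := by
  have h1 : Measurable fun y => ENNReal.ofReal (jac f y) := (measurable_jac f).ennreal_ofReal
  have h2 : Measurable fun y => k (f y) := hk.comp hf
  rw [im, lintegral_map hk hf, lintegral_withDensity_eq_lintegral_mul _ h1 h2,
    lintegral_withDensity_eq_lintegral_mul _ hG (h1.mul h2)]
  rfl

theorem int (hf : Measurable f) {k : ℂ → ℂ} (hk : Continuous k) :
    ∫ w, k w ∂im G f = ∫ y, k (f y) * (jac f y : ℂ) ∂volume.withDensity G := by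
  have h1 : Measurable fun y => ENNReal.ofReal (jac f y) := (measurable_jac f).ennreal_ofReal
  rw [im, integral_map hf.aemeasurable hk.aestronglyMeasurable,
    integral_withDensity_eq_integral_toReal_smul h1 (.of_forall fun _ => ENNReal.ofReal_lt_top)]
  refine integral_congr_ae (.of_forall fun y => ?_)
  simp only [ENNReal.toReal_ofReal (jac_nonneg f y), Complex.real_smul, mul_comm]

theorem fin (hG : Measurable G) (hf : Measurable f) {O : Set ℂ} (h0 : ∀ y, y ∉ O → G y = 0)
    {M : ℝ} (hM : ∀ y ∈ O, jac f y ≤ M) (hC : ∫⁻ y, G y ≠ ∞) : IsFiniteMeasure (im G f) := by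
  refine ⟨?_⟩
  rw [← lintegral_one, lint hG hf measurable_const]
  refine lt_of_le_of_lt (lintegral_mono (g := fun y => G y * ENNReal.ofReal M) fun y => ?_) ?_
  · by_cases hy : y ∈ O
    · exact mul_le_mul_right (by simpa using ENNReal.ofReal_le_ofReal (hM y hy)) _
    · simp [h0 y hy]
  · rw [lintegral_mul_const _ hG]
    exact ENNReal.mul_lt_top hC.lt_top ENNReal.ofReal_lt_top

theorem supp (hG : Measurable G) (hf : Measurable f) {O : Set ℂ} (h0 : ∀ y, y ∉ O → G y = 0)
    {ρ : ℝ} (hO : ∀ y ∈ O, f y ∈ ball 0 ρ) : im G f (closedBall 0 ρ)ᶜ = 0 := by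
  have hm : MeasurableSet (closedBall (0 : ℂ) ρ)ᶜ := measurableSet_closedBall.compl
  rw [← lintegral_indicator_one hm, lint hG hf (measurable_one.indicator hm)]
  refine (lintegral_congr fun y => ?_).trans lintegral_zero
  by_cases hy : y ∈ O
  · rw [indicator_of_notMem (not_not.2 (ball_subset_closedBall (hO y hy))), mul_zero, mul_zero]
  · rw [h0 y hy, zero_mul]

end CgzA

open CgzA in
theorem p_CGZ (hMOM : S_MOM) (hMU : S_MU) (hCONF : S_CONF) (hKK : S_KK) (hFIN : S_FIN) :
    S_CGZ := by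
  intro ν hν D f g hc ρ hρ x hx k hk
  have := hν.prob
  obtain ⟨o1, o2, o3, o4, -, M, o6⟩ := (hCONF D f g hc).2.2.2 ρ hρ
  have hb : Bornology.IsBounded (dm D f ρ) := o2.isBounded.subset subset_closure
  have m1 : Measurable (GG ν (dm D f ρ) 0 x) :=
    measurable_GG ν o1 measurable_const measurable_const measurable_id
  have m2 : Measurable (GG ν (ball 0 ρ) 0 (f x)) :=
    measurable_GG ν isOpen_ball measurable_const measurable_const measurable_id
  have z1 : ∀ y, y ∉ dm D f ρ → GG ν (dm D f ρ) 0 x y = 0 := fun y hy =>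
    (hKK ν hν _ o1).2.2.2.2.1 0 x y (Or.inr hy)
  have z2 : ∀ y, y ∉ ball (0 : ℂ) ρ → GG ν (ball 0 ρ) 0 (f x) y = 0 := fun y hy =>
    (hKK ν hν _ isOpen_ball).2.2.2.2.1 0 (f x) y (Or.inr hy)
  obtain ⟨C1, c1, d1⟩ := hFIN ν hν _ o1 hb
  obtain ⟨C2, c2, d2⟩ := hFIN ν hν _ isOpen_ball (isBounded_ball (x := (0 : ℂ)) (r := ρ))
  have e : im (GG ν (dm D f ρ) 0 x) f = im (GG ν (ball 0 ρ) 0 (f x)) id := by
    refine hMU _ _ ρ (fin m1 hc.mf z1 o6 (ne_top_of_le_ne_top c1 (d1 x)))
      (fin m2 measurable_id z2 (M := 1) (fun y _ => (jac_id y).le) (ne_top_of_le_ne_top c2 (d2 _)))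
      (supp m1 hc.mf z1 fun y hy => hy.2) (supp m2 measurable_id z2 fun y hy => hy) fun a b hab => ?_
    have hk' : Continuous fun w : ℂ => w ^ a * conj w ^ b := by fun_prop
    rw [int hc.mf hk', int measurable_id hk',
      hMOM ν hν _ D f ρ o1 hb hc.op o3 hc.diff hc.mf o4 x hx a b hab,
      hMOM ν hν (ball 0 ρ) univ id ρ isOpen_ball isBounded_ball isOpen_univ (subset_univ _)
        differentiableOn_id measurable_id
        (fun b hb => by rw [frontier_ball _ hρ.1.ne'] at hb; simpa using hb) (f x) hx.2 a b hab]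
    rfl
  rw [← lint m1 hc.mf hk, e, lint m2 measurable_id hk]
  simp

end Pool.Agent.P.MP_d66c6d_pr
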