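import Pool.Agent.P.MP_d66c6d_pr.C.Iface
import Pool.Agent.P.MP_d66c6d_pr.B.Iface

/-! Step CI of the carpet project. -/

namespace Pool.Agent.P.MP_d66c6d_pr

open MeasureTheory ProbabilityTheory Set Metric Filter Topology
open scoped ENNReal ComplexConjugate

namespace CiA

theorem int_one {L : ℝ≥0∞} (h0 : L ≠ 0) (h1 : L ≠ ∞) :
    ∫⁻ α in Ioi (0 : ℝ), ENNReal.ofReal α * (en (ENNReal.ofReal α * L) * L ^ 2) = 1 := by
  obtain ⟨r, hr, rfl⟩ : ∃ r : ℝ, 0 < r ∧ L = ENNReal.ofReal r :=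
    ⟨L.toReal, ENNReal.toReal_pos h0 h1, (ENNReal.ofReal_toReal h1).symm⟩
  have e1 : ∀ α ∈ Ioi (0 : ℝ),
      ENNReal.ofReal α * (en (ENNReal.ofReal α * ENNReal.ofReal r) * ENNReal.ofReal r ^ 2) =
      ENNReal.ofReal (α ^ ((2 : ℝ) - 1) * Real.exp (-(r * α)) * r ^ 2) := by
    intro α hα
    have hα' : 0 ≤ α := le_of_lt hα
    rw [← ENNReal.ofReal_mul hα', en_ofReal (mul_nonneg hα' hr.le),
      ← ENNReal.ofReal_pow hr.le, ← ENNReal.ofReal_mul (Real.exp_pos _).le,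
      ← ENNReal.ofReal_mul hα']
    congr 1
    rw [show (2 : ℝ) - 1 = 1 by norm_num, Real.rpow_one, mul_comm α r]
    ring
  rw [setLIntegral_congr_fun measurableSet_Ioi e1]
  have hi : IntegrableOn (fun α : ℝ => α ^ ((2 : ℝ) - 1) * Real.exp (-(r * α))) (Ioi 0) := by
    have := integrableOn_rpow_mul_exp_neg_mul_rpow (p := 1) (s := (2 : ℝ) - 1) (b := r)
      (by norm_num) one_pos hr
    simpa only [Real.rpow_one, neg_mul] using this
  rw [← ofReal_integral_eq_lintegral_ofReal (hi.mul_const _)]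
  · rw [integral_mul_const, Real.integral_rpow_mul_exp_neg_mul_Ioi two_pos hr]
    have : Real.Gamma 2 = 1 := by simp
    rw [this, Real.rpow_two]
    have : (1 / r) ^ 2 * 1 * r ^ 2 = 1 := by field_simp
    rw [this, ENNReal.ofReal_one]
  · refine (ae_restrict_iff' measurableSet_Ioi).2 (Eventually.of_forall fun α hα => ?_)
    have hα' : 0 ≤ α := le_of_lt hα
    positivity

theorem meas_eq {μ : Measure Lp} [SFinite μ] {S : Set Lp} (hS : MeasurableSet S)
    {F : Lp → ℝ≥0∞} (hF : Measurable F) (h : ∀ᵐ l ∂μ, l ∈ S → F l ≠ 0 ∧ F l ≠ ∞) :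
    μ S = ∫⁻ α in Ioi (0 : ℝ), ENNReal.ofReal α *
      ∫⁻ l in S, en (ENNReal.ofReal α * F l) * F l ^ 2 ∂μ := by
  have hm : Measurable fun q : ℝ × Lp =>
      ENNReal.ofReal q.1 * (en (ENNReal.ofReal q.1 * F q.2) * F q.2 ^ 2) := by fun_prop
  have e1 : ∀ α : ℝ, ENNReal.ofReal α * ∫⁻ l in S, en (ENNReal.ofReal α * F l) * F l ^ 2 ∂μ =
      ∫⁻ l in S, ENNReal.ofReal α * (en (ENNReal.ofReal α * F l) * F l ^ 2) ∂μ := by
    intro α
    rw [lintegral_const_mul _ (by fun_prop)]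
  simp_rw [e1]
  rw [lintegral_lintegral_swap hm.aemeasurable, ← setLIntegral_one]
  refine lintegral_congr_ae ((ae_restrict_iff' hS).2 ?_)
  filter_upwards [h] with l hl hlS
  exact (int_one (hl hlS).1 (hl hlS).2).symm

theorem occ_ne {V : ℂ → ℝ} (hV : Measurable V) {p : TP} (hp : 0 < p.1) {O : Set ℂ}
    (hO : range p.2 ⊆ O) {M : ℝ} (h0 : ∀ z ∈ O, 0 < V z) (h1 : ∀ z ∈ O, V z ≤ M) :
    occ (fun z => ENNReal.ofReal (V z)) p ≠ 0 ∧ occ (fun z => ENNReal.ofReal (V z)) p ≠ ∞ := by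
  have hmem : ∀ s : ℝ, sub 0 s p.2 1 ∈ O := fun s => by
    rw [sub_zero_one_apply]; exact hO (mem_range_self _)
  have hm : Measurable fun s : ℝ => ENNReal.ofReal (V (sub 0 s p.2 1)) :=
    (hV.comp (Measurable.evalBr (by fun_prop) measurable_const)).ennreal_ofReal
  unfold occ
  constructor
  · refine mul_ne_zero (by simpa using hp) ?_
    rw [← pos_iff_ne_zero, lintegral_pos_iff_support hm]
    have : Function.support (fun s : ℝ => ENNReal.ofReal (V (sub 0 s p.2 1))) = univ := by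
      refine eq_univ_of_forall fun s => ?_
      simpa using h0 _ (hmem s)
    rw [this]
    simp
  · refine ENNReal.mul_ne_top ENNReal.ofReal_ne_top (ne_top_of_le_ne_top
      (b := ∫⁻ _ in Ioo (0 : ℝ) 1, ENNReal.ofReal M) ?_ ?_)
    · simp
    · exact lintegral_mono fun s => ENNReal.ofReal_le_ofReal (h1 _ (hmem s))

/-- The radii. -/
noncomputable def rr (n : ℕ) : ℝ := 1 - 1 / ((n : ℝ) + 2)

theorem rr_mem (n : ℕ) : rr n ∈ Ioo (0 : ℝ) 1 := by
  have h : (0 : ℝ) ≤ n := n.cast_nonneg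
  have h1 : 1 / ((n : ℝ) + 2) < 1 := by rw [div_lt_one (by linarith)]; linarith
  have h2 : 0 < 1 / ((n : ℝ) + 2) := by positivity
  unfold rr
  constructor <;> linarith

theorem rr_mono : Monotone rr := fun m n h => by
  have h1 : (m : ℝ) ≤ n := Nat.cast_le.2 h
  have h2 : (0 : ℝ) ≤ m := m.cast_nonneg
  have : 1 / ((n : ℝ) + 2) ≤ 1 / ((m : ℝ) + 2) :=
    one_div_le_one_div_of_le (by linarith) (by linarith)
  unfold rr
  linarith

theorem rr_big {ρ : ℝ} (h : ρ < 1) : ∃ n, ρ ≤ rr n := by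
  obtain ⟨n, hn⟩ := exists_nat_one_div_lt (sub_pos.2 h)
  refine ⟨n, ?_⟩
  have h2 : (0 : ℝ) ≤ n := n.cast_nonneg
  have : 1 / ((n : ℝ) + 2) ≤ 1 / ((n : ℝ) + 1) :=
    one_div_le_one_div_of_le (by linarith) (by linarith)
  unfold rr
  linarith

theorem dm_mono (D : Set ℂ) (f : ℂ → ℂ) {a b : ℝ} (h : a ≤ b) : dm D f a ⊆ dm D f b :=
  inter_subset_inter_right _ (preimage_mono (ball_subset_ball h))

theorem exh (hCONF : S_CONF) {D : Set ℂ} {f g : ℂ → ℂ} (h : Conf D f g) (μ : Measure Lp)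
    (P : Lp → Prop) :
    μ {l | trace l ⊆ D ∧ P l} = ⨆ n, μ {l | trace l ⊆ dm D f (rr n) ∧ P l} := by
  rw [← Monotone.measure_iUnion]
  · congr 1
    ext l
    simp only [mem_ofPred_eq, mem_iUnion]
    constructor
    · rintro ⟨h1, h2⟩
      have hc : IsCompact (trace l) := by
        rw [← range_lp]; exact isCompact_range (lp l).2.continuous
      obtain ⟨ρ, hρ, h3⟩ := (hCONF D f g h).2.2.1 _ hc h1
      obtain ⟨n, hn⟩ := rr_big hρ.2
      exact ⟨n, h3.trans (dm_mono D f hn), h2⟩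
    · rintro ⟨n, h1, h2⟩
      exact ⟨h1.trans inter_subset_left, h2⟩
  · intro m n hmn l hl
    exact ⟨hl.1.trans (dm_mono D f (rr_mono hmn)), hl.2⟩

end CiA

open CiA in
theorem p_CI (hCP : S_CP) (hCONF : S_CONF) (hREV : S_REV) :
    S_CI := by
  intro ν hν D f g h U hU E hE
  have := hν.prob
  have : SFinite (loopMeasure ν) := by unfold loopMeasure; infer_instance
  have hpos : ∀ᵐ l ∂loopMeasure ν, 0 < (lp l).1 := by
    filter_upwards [(hREV.2 ν hν).2.2.2.2.2.2.2] with l hl using hl.1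
  rw [exh hCONF h, exh hCONF conf_id]
  refine iSup_congr fun n => ?_
  have hρ := rr_mem n
  obtain ⟨-, hj, -, h4⟩ := hCONF D f g h
  obtain ⟨ho, -, -, -, -, M, hM⟩ := h4 _ hρ
  have hU' : ∀ i, IsOpen (D ∩ f ⁻¹' U i) := fun i =>
    h.diff.continuousOn.isOpen_inter_preimage h.op (hU i)
  rw [dm_id hρ.2.le]
  have hS1 : MeasurableSet {l | trace l ⊆ dm D f (rr n) ∧ cod (fun i => D ∩ f ⁻¹' U i) l ∈ E} :=
    (measurableSet_traceSub ho).inter (measurable_cod hU' hE)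
  have hS2 : MeasurableSet {l | trace l ⊆ ball 0 (rr n) ∧ cod U l ∈ E} :=
    (measurableSet_traceSub isOpen_ball).inter (measurable_cod hU hE)
  rw [meas_eq hS1 (F := fun l => occ (fun z => ENNReal.ofReal (jac f z)) (lp l))
      ((measurable_occ (measurable_jac f).ennreal_ofReal).comp measurable_lp),
    meas_eq hS2 (F := fun l => occ 1 (lp l)) ((measurable_occ measurable_one).comp measurable_lp)]
  · refine setLIntegral_congr_fun measurableSet_Ioi fun α hα => ?_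
    rw [hCP ν hν α hα D f g h _ hρ U hU E hE]
  · filter_upwards [hpos] with l hl _
    rw [occ_one]
    exact ⟨by simpa using hl, ENNReal.ofReal_ne_top⟩
  · filter_upwards [hpos] with l hl hlS
    exact occ_ne (measurable_jac f) hl (O := dm D f (rr n)) (by rw [range_lp]; exact hlS.1)
      (fun z hz => hj z hz.1) hM

end Pool.Agent.P.MP_d66c6d_pr
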