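import Pool.Agent.P.MP_d66c6d_pr.C.Iface

/-! Step CM of the carpet project. -/

namespace Pool.Agent.P.MP_d66c6d_pr

open MeasureTheory ProbabilityTheory Set Metric Filter Topology
open scoped ENNReal ComplexConjugate

theorem p_CM (hMF : S_MF) (hCGQ : S_CGQ) (hCONF : S_CONF) (hKK : S_KK) :
    S_CM := by
  intro ν hν D f g hc ρ hρ q M hq hqM
  haveI := hν.prob
  obtain ⟨-, -, -, h4⟩ := hCONF D f g hc
  obtain ⟨hO, -, -, -, hg, -⟩ := h4 ρ hρ
  have hQ : Measurable fun z => q (f z) * jac f z :=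
    (hq.measurable.comp hc.mf).mul (measurable_jac f)
  have hV : Measurable fun z => ENNReal.ofReal (jac f z) := (measurable_jac f).ennreal_ofReal
  have hB : IsOpen (ball (0 : ℂ) ρ) := isOpen_ball
  rw [hMF ν hν _ _ _ hO hQ hV, hMF ν hν _ q 1 hB hq.measurable measurable_one]
  have z1 := (hKK ν hν _ hO).2.2.2.2.1 (fun z => q (f z) * jac f z)
  have z2 := (hKK ν hν _ hB).2.2.2.2.1 q
  have key := hCGQ ν hν D f g hc ρ hρ q M hq hqM
  have s1 : ∀ x, ENNReal.ofReal (jac f x) *
      ∫⁻ z, GG ν (dm D f ρ) (fun z => q (f z) * jac f z) x z *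
        (ENNReal.ofReal (jac f z) * GG ν (dm D f ρ) (fun z => q (f z) * jac f z) z x) =
      ∫⁻ w, GG ν (dm D f ρ) (fun z => q (f z) * jac f z) (g w) x *
        (ENNReal.ofReal (jac f x) * GG ν (ball 0 ρ) q (f x) w) := by
    intro x
    by_cases hx : x ∈ dm D f ρ
    · have hk : Measurable fun w => GG ν (dm D f ρ) (fun z => q (f z) * jac f z) (g w) x :=
        measurable_GG ν hO hQ hc.mg measurable_const
      have e1 : ∫⁻ z, GG ν (dm D f ρ) (fun z => q (f z) * jac f z) x z *
          (ENNReal.ofReal (jac f z) * GG ν (dm D f ρ) (fun z => q (f z) * jac f z) z x) =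
          ∫⁻ z, GG ν (dm D f ρ) (fun z => q (f z) * jac f z) x z *
          (ENNReal.ofReal (jac f z) *
            GG ν (dm D f ρ) (fun z => q (f z) * jac f z) (g (f z)) x) := by
        refine lintegral_congr fun z => ?_
        by_cases hz : z ∈ dm D f ρ
        · rw [hc.left z hz.1]
        · rw [z1 x z (Or.inr hz), zero_mul, zero_mul]
      rw [e1, key x hx _ hk, ← lintegral_const_mul' _ _ ENNReal.ofReal_ne_top]
      refine lintegral_congr fun w => ?_
      ring
    · have e1 : ∀ z, GG ν (dm D f ρ) (fun z => q (f z) * jac f z) x z = 0 := fun z =>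
        z1 x z (Or.inl hx)
      have e2 : ∀ z, GG ν (dm D f ρ) (fun z => q (f z) * jac f z) z x = 0 := fun z =>
        z1 z x (Or.inr hx)
      simp [e1, e2]
  have s3 : ∀ w, ∫⁻ x, GG ν (dm D f ρ) (fun z => q (f z) * jac f z) (g w) x *
        (ENNReal.ofReal (jac f x) * GG ν (ball 0 ρ) q (f x) w) =
      (1 : ℂ → ℝ≥0∞) w * ∫⁻ z, GG ν (ball 0 ρ) q w z *
        ((1 : ℂ → ℝ≥0∞) z * GG ν (ball 0 ρ) q z w) := by
    intro w
    simp only [Pi.one_apply, one_mul]
    by_cases hw : w ∈ ball (0 : ℂ) ρ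
    · have hk : Measurable fun z => GG ν (ball 0 ρ) q z w :=
        measurable_GG ν hB hq.measurable measurable_id measurable_const
      rw [key (g w) (hg hw) _ hk, hc.right w (ball_subset_ball hρ.2.le hw)]
    · have e1 : ∀ z, GG ν (ball 0 ρ) q z w = 0 := fun z => z2 z w (Or.inr hw)
      simp [e1]
  simp_rw [s1]
  rw [lintegral_lintegral_swap]
  · exact lintegral_congr s3
  · refine Measurable.aemeasurable ?_
    refine Measurable.mul ?_ (Measurable.mul (hV.comp measurable_fst) ?_)
    · exact measurable_GG ν hO hQ (hc.mg.comp measurable_snd) measurable_fst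
    · exact measurable_GG ν hB hq.measurable (hc.mf.comp measurable_fst) measurable_snd

end Pool.Agent.P.MP_d66c6d_pr
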