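import Pool.Agent.P.MP_d66c6d_pr.C.Iface
import Pool.Agent.P.MP_56bcbf_an.Koebe

/-! Step CONF of the carpet project. -/

namespace Pool.Agent.P.MP_d66c6d_pr

open MeasureTheory ProbabilityTheory Set Metric Filter Topology
open scoped ENNReal ComplexConjugate

theorem p_CONF :
    S_CONF := by
  intro D f g h
  have cj : ContinuousOn (jac f) D := ((h.diff.deriv h.op).continuousOn.norm).pow 2
  have cf := h.diff.continuousOn
  refine ⟨cj, fun z hz => pow_pos (norm_pos_iff.2
    (MP_56bcbf_an.deriv_ne_zero h.op h.diff h.inj hz)) 2, fun K hK hKD => ?_, fun ρ hρ => ?_⟩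
  · rcases K.eq_empty_or_nonempty with rfl | hne
    · exact ⟨1 / 2, by norm_num, empty_subset _⟩
    obtain ⟨z, hz, hm⟩ := hK.exists_isMaxOn hne (cf.mono hKD).norm
    have h1 : ‖f z‖ < 1 := mem_ball_zero_iff.1 (h.mapsf (hKD hz))
    have h0 := norm_nonneg (f z)
    refine ⟨(‖f z‖ + 1) / 2, ⟨by linarith, by linarith⟩, fun w hw => ⟨hKD hw, ?_⟩⟩
    have h2 : ‖f w‖ ≤ ‖f z‖ := hm hw
    exact mem_ball_zero_iff.2 (by linarith)
  · have hs : closedBall (0 : ℂ) ρ ⊆ ball 0 1 := closedBall_subset_ball hρ.2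
    have hc : IsCompact (g '' closedBall 0 ρ) :=
      (isCompact_closedBall 0 ρ).image_of_continuousOn (h.cg.mono hs)
    have hD : g '' closedBall 0 ρ ⊆ D := image_subset_iff.2 fun w hw => h.mapsg (hs hw)
    have h1 : closure (dm D f ρ) ⊆ g '' closedBall 0 ρ := closure_minimal
      (fun z hz => ⟨f z, ball_subset_closedBall hz.2, h.left z hz.1⟩) hc.isClosed
    have ho : IsOpen (dm D f ρ) := cf.isOpen_inter_preimage h.op isOpen_ball
    refine ⟨ho, hc.of_isClosed_subset isClosed_closure h1, h1.trans hD, fun b hb => ?_,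
      fun w hw => ?_, ?_⟩
    · obtain ⟨w, hw, rfl⟩ := h1 hb.1
      have h2 : g w ∉ dm D f ρ := fun h3 => hb.2 (ho.interior_eq.symm ▸ h3)
      rw [h.right w (hs hw)]
      refine le_antisymm (mem_closedBall_zero_iff.1 hw) (not_lt.1 fun h4 => h2
        ⟨h.mapsg (hs hw), ?_⟩)
      rw [mem_preimage, h.right w (hs hw)]
      exact mem_ball_zero_iff.2 h4
    · have h2 := hs (ball_subset_closedBall hw)
      exact ⟨h.mapsg h2, by rwa [mem_preimage, h.right w h2]⟩
    · obtain ⟨M, hM⟩ := hc.bddAbove_image (cj.mono hD)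
      exact ⟨M, fun z hz => hM ⟨z, h1 (subset_closure hz), rfl⟩⟩

end Pool.Agent.P.MP_d66c6d_pr
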