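import Pool.Agent.P.MP_d66c6d_pr.C.Iface

/-! Step CP of the carpet project. -/

namespace Pool.Agent.P.MP_d66c6d_pr

open MeasureTheory ProbabilityTheory Set Metric Filter Topology
open scoped ENNReal ComplexConjugate

namespace CpA

/-- The codes that vanish on a finite set of indices. -/
def cyl (F : Finset ℕ) : Set (ℕ → Prop) := {c | ∀ i ∈ F, ¬ c i}

theorem measurableSet_cyl (F : Finset ℕ) : MeasurableSet (cyl F) := by
  have : cyl F = ⋂ i ∈ F, {c : ℕ → Prop | c i}ᶜ := by
    ext c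
    simp [cyl]
  rw [this]
  exact F.measurableSet_biInter fun i _ =>
    (measurableSet_setOfPred.2 (measurable_pi_apply i)).compl

theorem pi_cyl : IsPiSystem (range cyl) := by
  rintro _ ⟨F, rfl⟩ _ ⟨G, rfl⟩ -
  refine ⟨F ∪ G, ?_⟩
  ext c
  simp only [cyl, Finset.mem_union, mem_ofPred_eq, mem_inter_iff]
  exact ⟨fun h => ⟨fun i hi => h i (Or.inl hi), fun i hi => h i (Or.inr hi)⟩,
    fun h i hi => hi.elim (h.1 i) (h.2 i)⟩

theorem gen_cyl : (MeasurableSpace.pi : MeasurableSpace (ℕ → Prop)) =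
    MeasurableSpace.generateFrom (range cyl) := by
  apply le_antisymm
  · have h : @Measurable (ℕ → Prop) (ℕ → Prop) (MeasurableSpace.generateFrom (range cyl))
        MeasurableSpace.pi id := by
      letI : MeasurableSpace (ℕ → Prop) := MeasurableSpace.generateFrom (range cyl)
      refine measurable_pi_lambda _ fun i => measurableSet_setOfPred.1 ?_
      have h1 : MeasurableSet (cyl {i}) := MeasurableSpace.measurableSet_generateFrom ⟨{i}, rfl⟩
      have h2 : {c : ℕ → Prop | id c i} = (cyl {i})ᶜ := by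
        ext c
        simp [cyl]
      rw [h2]
      exact h1.compl
    exact fun s hs => h hs
  · refine MeasurableSpace.generateFrom_le ?_
    rintro _ ⟨F, rfl⟩
    exact measurableSet_cyl F

theorem map_ap (μ : Measure Lp) {O : Set ℂ} (w : Lp → ℝ≥0∞) {U : ℕ → Set ℂ}
    (hU : ∀ i, IsOpen (U i)) {E : Set (ℕ → Prop)} (hE : MeasurableSet E) :
    (((μ.restrict {l | trace l ⊆ O}).withDensity w).map (cod U)) E =
      ∫⁻ l in {l | trace l ⊆ O ∧ cod U l ∈ E}, w l ∂μ := by
  have hm := measurable_cod hU hE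
  rw [Measure.map_apply (measurable_cod hU) hE, withDensity_apply _ hm,
    Measure.restrict_restrict hm, inter_comm]
  rfl

theorem cod_mem (U : ℕ → Set ℂ) (F : Finset ℕ) (l : Lp) :
    cod U l ∈ cyl F ↔ ¬ (trace l ∩ ⋃ i ∈ F, U i).Nonempty := by
  simp only [cyl, cod, mem_ofPred_eq, inter_iUnion, nonempty_iUnion, not_exists]

end CpA

open CpA in
theorem p_CP (hCZ : S_CZ) (hCONF : S_CONF) :
    S_CP := by
  intro ν hν α hα D f g hc ρ hρ U hU E hE
  obtain ⟨hfin, hZ⟩ := hCZ ν hν α hα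
  have hU1 : ∀ i, IsOpen (D ∩ f ⁻¹' U i) := fun i =>
    hc.diff.continuousOn.isOpen_inter_preimage hc.op (hU i)
  rw [← map_ap _ _ hU1 hE, ← map_ap _ _ hU hE]
  set n1 := ((((loopMeasure ν).restrict {l | trace l ⊆ dm D f ρ}).withDensity fun l =>
    en (ENNReal.ofReal α * occ (fun z => ENNReal.ofReal (jac f z)) (lp l)) *
      occ (fun z => ENNReal.ofReal (jac f z)) (lp l) ^ 2).map (cod fun i => D ∩ f ⁻¹' U i)) with h1
  set n2 := ((((loopMeasure ν).restrict {l | trace l ⊆ ball 0 ρ}).withDensity fun l =>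
    en (ENNReal.ofReal α * occ 1 (lp l)) * occ 1 (lp l) ^ 2).map (cod U)) with h2
  have key : ∀ F : Finset ℕ, n2 (cyl F) = n1 (cyl F) := by
    intro F
    rw [h1, h2, map_ap _ _ hU1 (measurableSet_cyl F), map_ap _ _ hU (measurableSet_cyl F)]
    have e : (⋃ i ∈ F, D ∩ f ⁻¹' U i) = D ∩ f ⁻¹' ⋃ i ∈ F, U i := by
      simp only [preimage_iUnion, inter_iUnion]
    simp only [cod_mem, e]
    exact (hZ D f g hc ρ hρ _ (isOpen_biUnion fun i _ => hU i)).symm
  have hu : cyl ∅ = univ := by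
    ext c
    simp [cyl]
  have : IsFiniteMeasure n2 := by
    refine ⟨?_⟩
    rw [h2, map_ap _ _ hU MeasurableSet.univ]
    refine lt_of_le_of_lt (lintegral_mono_set ?_) hfin.lt_top
    exact fun l hl => hl.1.trans (ball_subset_ball hρ.2.le)
  have : n2 = n1 := by
    refine ext_of_generate_finite _ gen_cyl pi_cyl ?_ (hu ▸ key ∅)
    rintro _ ⟨F, rfl⟩
    exact key F
  rw [this]

end Pool.Agent.P.MP_d66c6d_pr
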