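import Pool.Agent.P.MP_d66c6d_pr.C.Iface
import Pool.Agent.P.MP_d66c6d_pr.B.Iface

/-! Step CZ of the carpet project. -/

namespace Pool.Agent.P.MP_d66c6d_pr

open MeasureTheory ProbabilityTheory Set Metric Filter Topology
open scoped ENNReal ComplexConjugate

namespace CzA

theorem meas_path (γ : Br) : Measurable fun s : ℝ => sub 0 s γ 1 :=
  Measurable.evalBr (by fun_prop) measurable_const

theorem occ_lin {V W : ℂ → ℝ≥0∞} (hV : Measurable V) (hW : Measurable W) (a b : ℝ≥0∞) (p : TP) :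
    occ (fun z => a * V z + b * W z) p = a * occ V p + b * occ W p := by
  have h1 : Measurable fun s => V (sub 0 s p.2 1) := hV.comp (meas_path p.2)
  have h2 : Measurable fun s => W (sub 0 s p.2 1) := hW.comp (meas_path p.2)
  simp only [occ]
  rw [lintegral_add_left (h1.const_mul a), lintegral_const_mul a h1, lintegral_const_mul b h2]
  ring

theorem occ_eq_zero {D : Set ℂ} {W : ℂ → ℝ} (hW : Measurable W) (hc : ContinuousOn W D) {p : TP}
    (ht : 0 < p.1) (hr : range p.2 ⊆ D) :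
    occ (fun z => ENNReal.ofReal (W z)) p = 0 ↔ ∀ z ∈ range p.2, W z ≤ 0 := by
  have h0 : Measurable fun s => ENNReal.ofReal (W (sub 0 s p.2 1)) :=
    hW.ennreal_ofReal.comp (meas_path p.2)
  simp only [occ]
  rw [mul_eq_zero, or_iff_right (ENNReal.ofReal_pos.2 ht).ne',
    lintegral_eq_zero_iff h0, restrict_Ioo_eq_restrict_Icc]
  simp only [sub_zero_one_apply]
  refine ⟨fun h => ?_, fun h => Eventually.of_forall fun s =>
    ENNReal.ofReal_eq_zero.2 (h _ (mem_range_self _))⟩
  rintro _ ⟨s, rfl⟩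
  have h1 := Measure.eqOn_Icc_of_ae_eq volume zero_ne_one h
    (ENNReal.continuous_ofReal.comp (hc.comp_continuous
      (p.2.continuous.comp continuous_projIcc) fun s => hr (mem_range_self _))).continuousOn
    continuousOn_const s.2
  simpa using h1

theorem en_nat (c : ℝ≥0∞) (n : ℕ) : en (n * c) = en c ^ n := by
  induction n with
  | zero => simp
  | succ n ih => rw [Nat.cast_succ, add_mul, one_mul, en_add, ih, pow_succ]

theorem en_tendsto {c : ℝ≥0∞} (hc : c ≠ 0) : Tendsto (fun n : ℕ => en (n * c)) atTop (𝓝 0) := by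
  simp only [en_nat]
  refine ENNReal.tendsto_pow_atTop_nhds_zero_of_lt_one (EReal.exp_lt_one_iff.2 ?_)
  simpa using pos_iff_ne_zero.2 hc

theorem wt_eq {O : Set ℂ} {J W : ℂ → ℝ} (hJ : Measurable J) (hW : Measurable W)
    (h0 : ∀ z, 0 ≤ J z) (h1 : ∀ z, 0 ≤ W z) {α : ℝ} (hα : 0 ≤ α) (n : ℕ) (l : Lp) :
    wt O (fun z => (α + n * W z) * J z) (lp l) * occ (fun z => ENNReal.ofReal (J z)) (lp l) ^ 2 =
      {l : Lp | trace l ⊆ O}.indicator (fun l => en (ENNReal.ofReal α *
        occ (fun z => ENNReal.ofReal (J z)) (lp l)) *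
        occ (fun z => ENNReal.ofReal (J z)) (lp l) ^ 2) l *
      en (n * occ (fun z => ENNReal.ofReal (W z * J z)) (lp l)) := by
  unfold wt
  by_cases h : trace l ⊆ O
  · rw [indicator_of_mem (by simpa [range_lp] using h), indicator_of_mem (by exact h)]
    have : (fun z => ENNReal.ofReal ((α + n * W z) * J z)) = fun z =>
        ENNReal.ofReal α * ENNReal.ofReal (J z) + n * ENNReal.ofReal (W z * J z) := by
      funext z
      have := h0 z
      have := h1 z
      rw [add_mul, ENNReal.ofReal_add (by positivity) (by positivity), ENNReal.ofReal_mul hα,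
        mul_assoc, ENNReal.ofReal_mul (Nat.cast_nonneg n), ENNReal.ofReal_natCast]
    rw [this, occ_lin hJ.ennreal_ofReal (hW.fun_mul hJ).ennreal_ofReal, en_add]
    ring
  · rw [indicator_of_notMem (by simpa [range_lp] using h), indicator_of_notMem (by exact h)]
    simp

theorem lim (hCONF : S_CONF) {μ : Measure Lp} (hμ : ∀ᵐ l ∂μ, 0 < l.2.1) {D U : Set ℂ}
    {f g : ℂ → ℂ} (h : Conf D f g) {ρ α : ℝ} (hρ : ρ ∈ Ioo (0 : ℝ) 1) (hα : 0 ≤ α) (hU : IsOpen U)
    {ψ : ℂ → ℝ} (hψ : Continuous ψ) (h0 : ∀ w, 0 ≤ ψ w) (hs : Function.support ψ = U)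
    (hfin : ∫⁻ l, wt (dm D f ρ) (fun z => (α + (0 : ℕ) * ψ (f z)) * jac f z) (lp l) *
      occ (fun z => ENNReal.ofReal (jac f z)) (lp l) ^ 2 ∂μ ≠ ∞) :
    Tendsto (fun n : ℕ => ∫⁻ l, wt (dm D f ρ) (fun z => (α + n * ψ (f z)) * jac f z) (lp l) *
      occ (fun z => ENNReal.ofReal (jac f z)) (lp l) ^ 2 ∂μ) atTop
      (𝓝 (∫⁻ l in {l | trace l ⊆ dm D f ρ ∧ ¬ (trace l ∩ (D ∩ f ⁻¹' U)).Nonempty},
        en (ENNReal.ofReal α * occ (fun z => ENNReal.ofReal (jac f z)) (lp l)) *
          occ (fun z => ENNReal.ofReal (jac f z)) (lp l) ^ 2 ∂μ)) := by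
  obtain ⟨hj, hp, -, h3⟩ := hCONF D f g h
  have hO := (h3 ρ hρ).1
  have hW : Measurable fun z => ψ (f z) := hψ.measurable.comp h.mf
  have hm : ∀ n : ℕ, Measurable fun l => wt (dm D f ρ) (fun z => (α + n * ψ (f z)) * jac f z) (lp l) *
      occ (fun z => ENNReal.ofReal (jac f z)) (lp l) ^ 2 := fun n =>
    ((measurable_wt hO (((hW.const_mul _).const_add _).mul (measurable_jac f))).comp
      measurable_lp).mul
      (((measurable_occ (measurable_jac f).ennreal_ofReal).comp measurable_lp).pow_const 2)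
  have he := wt_eq (O := dm D f ρ) (measurable_jac f) hW (jac_nonneg f) (fun z => h0 _) hα
  have hS : MeasurableSet {l | trace l ⊆ dm D f ρ ∧ ¬ (trace l ∩ (D ∩ f ⁻¹' U)).Nonempty} :=
    (measurableSet_traceSub hO).inter (measurableSet_traceHit
      (h.diff.continuousOn.isOpen_inter_preimage h.op hU)).compl
  rw [← lintegral_indicator hS]
  refine tendsto_lintegral_of_dominated_convergence _ hm
    (fun n => Eventually.of_forall fun l => ?_) hfin ?_
  · simp only [he]
    exact mul_le_mul_right (en_anti (by simp)) _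
  filter_upwards [hμ, ae_lt_top (hm 0) hfin] with l h1 h2
  simp only [he] at h2 ⊢
  rw [Nat.cast_zero, zero_mul, en_zero, mul_one] at h2
  by_cases h4 : trace l ⊆ dm D f ρ
  swap
  · rw [indicator_of_notMem (by exact h4), indicator_of_notMem fun e => h4 e.1]
    simp
  have h5 : range (lp l).2 ⊆ D := range_lp l ▸ h4.trans inter_subset_left
  have h6 := occ_eq_zero (hW.fun_mul (measurable_jac f))
    ((hψ.comp_continuousOn h.diff.continuousOn).mul hj) (p := lp l) h1 h5
  rw [range_lp] at h5 h6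
  by_cases h7 : (trace l ∩ (D ∩ f ⁻¹' U)).Nonempty
  · have h8 : l ∉ {l | trace l ⊆ dm D f ρ ∧ ¬ (trace l ∩ (D ∩ f ⁻¹' U)).Nonempty} :=
      fun e => e.2 h7
    rw [indicator_of_notMem h8]
    obtain ⟨z, z1, z2, z3⟩ := h7
    have := ENNReal.Tendsto.const_mul (en_tendsto fun e => (h6.1 e z z1).not_gt
      (mul_pos ((h0 _).lt_of_ne' (by rwa [← hs] at z3)) (hp z z2))) (Or.inr h2.ne)
    rwa [mul_zero] at this
  · rw [h6.2 fun z hz => by
      have : ψ (f z) = 0 := by
        by_contra e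
        exact h7 ⟨z, hz, h5 hz, by rwa [← hs]⟩
      simp [this], indicator_of_mem (by exact h4), indicator_of_mem (by exact And.intro h4 h7)]
    simp

theorem fin (hREV : S_REV) {ν : Measure Br} (hν : IsBridge ν) {α : ℝ} (hα : 0 < α) :
    ∫⁻ l in {l | trace l ⊆ ball 0 1},
      en (ENNReal.ofReal α * occ 1 (lp l)) * occ 1 (lp l) ^ 2 ∂loopMeasure ν ≠ ∞ := by
  have := hν.prob
  have hG : Measurable fun t : ℝ => en (ENNReal.ofReal α * ENNReal.ofReal t) * ENNReal.ofReal t ^ 2 := by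
    fun_prop
  rw [← lintegral_indicator (measurableSet_traceSub isOpen_ball)]
  refine ne_top_of_le_ne_top ?_ (lintegral_mono_ae (g := fun l => (ball (0 : ℂ) 1).indicator 1 l.1 *
    (en (ENNReal.ofReal α * ENNReal.ofReal l.2.1) * ENNReal.ofReal l.2.1 ^ 2 * 1)) ?_)
  · unfold loopMeasure
    rw [lintegral_prod_mul (f := (ball (0 : ℂ) 1).indicator 1)
      (g := fun q : ℝ × Br => en (ENNReal.ofReal α * ENNReal.ofReal q.1) * ENNReal.ofReal q.1 ^ 2 * 1)
      (measurable_one.indicator measurableSet_ball).aemeasurable (by fun_prop),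
      lintegral_prod_mul (g := fun _ : Br => 1) hG.aemeasurable aemeasurable_const,
      lintegral_indicator_one measurableSet_ball, lintegral_one, measure_univ, mul_one,
      lintegral_withDensity_eq_lintegral_mul _ (by fun_prop) hG]
    refine ENNReal.mul_ne_top measure_ball_lt_top.ne (ne_top_of_le_ne_top
      (exp_neg_integrableOn_Ioi 0 hα).lintegral_lt_top.ne
      (setLIntegral_mono' measurableSet_Ioi fun t (ht : 0 < t) => ?_))
    have h1 : 1 / (2 * Real.pi * t ^ 2) * t ^ 2 ≤ 1 := by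
      have := Real.pi_gt_three
      field_simp
      linarith
    rw [Pi.mul_apply, ← ENNReal.ofReal_mul hα.le, en_ofReal (by positivity),
      ← ENNReal.ofReal_pow ht.le, mul_left_comm, ← ENNReal.ofReal_mul (by positivity), neg_mul]
    exact mul_le_of_le_one_right' (ENNReal.ofReal_le_one.2 h1)
  · filter_upwards [(hREV.2 ν hν).2.2.2.2.2.2.2] with l h
    refine indicator_apply_le' (fun e => ?_) fun _ => zero_le
    rw [indicator_of_mem (e (range_lp l ▸ ⟨0, h.2.1⟩)), occ_one]
    simp [lp]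

end CzA

theorem p_CZ (hCM : S_CM) (hCONF : S_CONF) (hREV : S_REV) :
    S_CZ := by
  intro ν hν α hα
  have hfin := CzA.fin hREV hν hα
  refine ⟨hfin, fun D f g h ρ hρ U hU => ?_⟩
  obtain ⟨ψ, hs, hψ, hr⟩ := hU.exists_contDiff_support_eq (n := 0)
  have h0 : ∀ w, 0 ≤ ψ w := fun w => (hr (mem_range_self w)).1
  have hμ : ∀ᵐ l ∂loopMeasure ν, 0 < l.2.1 := (hREV.2 ν hν).2.2.2.2.2.2.2.mono fun l e => e.1
  have key := fun (D : Set ℂ) (f g : ℂ → ℂ) (h : Conf D f g) (n : ℕ) =>
    hCM ν hν D f g h ρ hρ (fun w => α + n * ψ w) (α + n)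
      (continuous_const.add (continuous_const.mul hψ.continuous)) fun w =>
        ⟨by have := h0 w; positivity, by
          have := mul_le_of_le_one_right (Nat.cast_nonneg (α := ℝ) n) (hr (mem_range_self w)).2
          linarith⟩
  have h1 : ∫⁻ l, wt (ball 0 ρ) (fun w => α + (0 : ℕ) * ψ w) (lp l) * occ 1 (lp l) ^ 2
      ∂loopMeasure ν ≠ ∞ := by
    refine ne_top_of_le_ne_top hfin ?_
    rw [← lintegral_indicator (measurableSet_traceSub isOpen_ball)]
    refine lintegral_mono fun l => ?_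
    have := CzA.wt_eq (O := ball 0 ρ) (J := fun _ => 1) measurable_const hψ.continuous.measurable
      (fun _ => zero_le_one) h0 hα.le 0 l
    simp only [mul_one, ENNReal.ofReal_one, Nat.cast_zero, zero_mul, en_zero] at this ⊢
    refine this.trans_le ?_
    exact indicator_le_indicator_of_subset
      (fun l (e : trace l ⊆ ball 0 ρ) => e.trans (ball_subset_ball hρ.2.le)) (fun _ => zero_le) l
  have t1 := CzA.lim hCONF hμ h hρ hα.le hU hψ.continuous h0 hs (key D f g h 0 ▸ h1)
  have t2 := CzA.lim hCONF hμ conf_id hρ hα.le hU hψ.continuous h0 hs (key _ _ _ conf_id 0 ▸ h1)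
  simp only [key D f g h] at t1
  simp only [key _ _ _ conf_id] at t2
  rw [tendsto_nhds_unique t1 t2, dm_id hρ.2.le]
  simp only [jac_id, ENNReal.ofReal_one]
  congr 2
  ext l
  refine and_congr_right fun e => not_congr ⟨fun ⟨z, a, b⟩ => ⟨z, a, b.2⟩,
    fun ⟨z, a, b⟩ => ⟨z, a, ball_subset_ball hρ.2.le (e a), b⟩⟩

end Pool.Agent.P.MP_d66c6d_pr
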