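import Pool.Agent.P.MP_d66c6d_pr.B.Iface
import Pool.Agent.P.MP_d66c6d_pr.T.Iface

/-!
Conformal invariance of the loop measure: occupation integrals, killed kernels, Green functions.
-/

namespace Pool.Agent.P.MP_d66c6d_pr

open MeasureTheory ProbabilityTheory Set Metric Filter Topology
open scoped ENNReal

/-- The function `exp (-x)` on `[0, ∞]`. -/
noncomputable def en (x : ℝ≥0∞) : ℝ≥0∞ := EReal.exp (-(x : EReal))

/-- The occupation integral of `V` along a timed path. -/
noncomputable def occ (V : ℂ → ℝ≥0∞) (p : TP) : ℝ≥0∞ :=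
  ENNReal.ofReal p.1 * ∫⁻ s in Ioo (0 : ℝ) 1, V (sub 0 s p.2 1)

/-- The weight of a path killed outside `O` and by the potential `q`. -/
noncomputable def wt (O : Set ℂ) (q : ℂ → ℝ) (p : TP) : ℝ≥0∞ :=
  {p : TP | range p.2 ⊆ O}.indicator (fun p => en (occ (fun z => ENNReal.ofReal (q z)) p)) p

/-- The heat kernel killed outside `O`. -/
noncomputable def KK (ν : Measure Br) (O : Set ℂ) (t : ℝ) (x y : ℂ) : ℝ≥0∞ :=
  brM ν t x y {γ | range γ ⊆ O}

/-- The Green function of `O` with potential `q`. -/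
noncomputable def GG (ν : Measure Br) (O : Set ℂ) (q : ℂ → ℝ) (x y : ℂ) : ℝ≥0∞ :=
  ∫⁻ p, wt O q p ∂grM ν x y

/-- The preimage of the disc of radius `ρ`. -/
def dm (D : Set ℂ) (f : ℂ → ℂ) (ρ : ℝ) : Set ℂ := D ∩ f ⁻¹' ball 0 ρ

/-- The Jacobian of a holomorphic map. -/
noncomputable def jac (f : ℂ → ℂ) (z : ℂ) : ℝ := ‖deriv f z‖ ^ 2

/-- The code of a loop: which of the sets `U i` it meets. -/
def cod (U : ℕ → Set ℂ) (l : Lp) : ℕ → Prop := fun i => (trace l ∩ U i).Nonempty

/-- Hypotheses of the Dynkin formula: `u` is small near the frontier of `O` and has generator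
`h` uniformly on `O`. -/
structure DynHyp (O : Set ℂ) (u h : ℂ → ℂ) (M r₀ : ℝ) : Prop where
  op : IsOpen O
  bd : Bornology.IsBounded O
  mu : Measurable u
  mh : Measurable h
  pos : 0 < r₀
  bu : ∀ w ∈ thickening r₀ O, ‖u w‖ ≤ M
  bh : ∀ y ∈ O, ‖h y‖ ≤ M
  cu : ContinuousOn u O
  fr : ∀ ε > (0 : ℝ), ∃ r > (0 : ℝ), ∀ w ∈ thickening r₀ O, ∀ b ∈ frontier O, dist w b < r →
    ‖u w‖ ≤ ε
  gen : ∀ ε > (0 : ℝ), ∃ δ₀ > (0 : ℝ), ∀ δ ∈ Ioo 0 δ₀, ∀ y ∈ O,
    ‖∫ z in ball 0 r₀, u (y + z) ∂gm δ - u y - δ * h y‖ ≤ ε * δ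

@[simp] theorem en_zero : en 0 = 1 := by simp [en]

@[simp] theorem en_top : en ∞ = 0 := by simp [en]

theorem en_ofReal {r : ℝ} (hr : 0 ≤ r) :
    en (ENNReal.ofReal r) = ENNReal.ofReal (Real.exp (-r)) := by
  rw [en, EReal.coe_ennreal_ofReal, max_eq_left hr, ← EReal.coe_neg, EReal.exp_coe]

theorem en_add (x y : ℝ≥0∞) : en (x + y) = en x * en y := by
  rw [en, en, en, ← EReal.exp_add, EReal.coe_ennreal_add,
    EReal.neg_add (Or.inl (EReal.coe_ennreal_ne_bot x)) (Or.inr (EReal.coe_ennreal_ne_bot y))]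
  rfl

theorem en_anti : Antitone en := fun _ _ h =>
  EReal.exp_monotone (EReal.neg_le_neg_iff.2 (EReal.coe_ennreal_le_coe_ennreal_iff.2 h))

theorem en_le_one (x : ℝ≥0∞) : en x ≤ 1 := en_zero ▸ en_anti zero_le

@[fun_prop] theorem measurable_en : Measurable en := en_anti.measurable

theorem sub_zero_one_apply (s : ℝ) (γ : Br) :
    sub 0 s γ 1 = γ (projIcc 0 1 zero_le_one s) := by simp [sub_apply]

theorem measurable_occ {V : ℂ → ℝ≥0∞} (hV : Measurable V) : Measurable (occ V) := by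
  unfold occ
  refine Measurable.mul (by fun_prop) ?_
  refine Measurable.lintegral_prod_right' (f := fun q : TP × ℝ => V (sub 0 q.2 q.1.2 1)) ?_
  exact hV.comp (Measurable.evalBr (by fun_prop) measurable_const)

theorem isOpen_rangeSub {O : Set ℂ} (hO : IsOpen O) : IsOpen {γ : Br | range γ ⊆ O} := by
  simpa only [mapsTo_univ_iff_range_subset] using
    ContinuousMap.isOpen_setOfPred_mapsTo (X := unitInterval) (Y := ℂ) isCompact_univ hO

theorem measurableSet_rangeSub {O : Set ℂ} (hO : IsOpen O) :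
    MeasurableSet {p : TP | range p.2 ⊆ O} :=
  measurable_snd (isOpen_rangeSub hO).measurableSet

theorem measurableSet_traceSub {O : Set ℂ} (hO : IsOpen O) :
    MeasurableSet {l : Lp | trace l ⊆ O} := by
  simp only [← range_lp]
  exact measurable_lp (measurableSet_rangeSub hO)

theorem measurable_wt {O : Set ℂ} (hO : IsOpen O) {q : ℂ → ℝ} (hq : Measurable q) :
    Measurable (wt O q) :=
  (measurable_en.comp (measurable_occ hq.ennreal_ofReal)).indicator (measurableSet_rangeSub hO)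

theorem wt_le_one (O : Set ℂ) (q : ℂ → ℝ) (p : TP) : wt O q p ≤ 1 :=
  indicator_apply_le' (fun _ => en_le_one _) fun _ => zero_le

theorem wt_zero (O : Set ℂ) (p : TP) : wt O 0 p = {p : TP | range p.2 ⊆ O}.indicator 1 p := by
  simp [wt, occ, indicator]

theorem measurable_KK (ν : Measure Br) [SFinite ν] {O : Set ℂ} (hO : IsOpen O) {α : Type*}
    [MeasurableSpace α] {t : α → ℝ} {x y : α → ℂ} (ht : Measurable t) (hx : Measurable x)
    (hy : Measurable y) : Measurable fun a => KK ν O (t a) (x a) (y a) := by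
  have hm := (isOpen_rangeSub hO).measurableSet
  simp only [KK, ← lintegral_indicator_one hm]
  exact measurable_brM ν ht hx hy ((measurable_one.indicator hm).comp measurable_snd)

theorem measurable_GG (ν : Measure Br) [SFinite ν] {O : Set ℂ} (hO : IsOpen O) {q : ℂ → ℝ}
    (hq : Measurable q) {α : Type*} [MeasurableSpace α] {x y : α → ℂ} (hx : Measurable x)
    (hy : Measurable y) : Measurable fun a => GG ν O q (x a) (y a) :=
  measurable_grM ν hx hy ((measurable_wt hO hq).comp measurable_snd)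

@[fun_prop] theorem measurable_jac (f : ℂ → ℂ) : Measurable (jac f) :=
  (measurable_deriv f).norm.pow_const 2

theorem jac_nonneg (f : ℂ → ℂ) (z : ℂ) : 0 ≤ jac f z := sq_nonneg _

@[simp] theorem jac_id (z : ℂ) : jac id z = 1 := by simp [jac]

theorem dm_id {ρ : ℝ} (h : ρ ≤ 1) : dm (ball 0 1) id ρ = ball 0 ρ :=
  inter_eq_right.2 (ball_subset_ball h)

theorem occ_one (p : TP) : occ 1 p = ENNReal.ofReal p.1 := by simp [occ]

theorem measurableSet_traceHit {U : Set ℂ} (hU : IsOpen U) :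
    MeasurableSet {l : Lp | (trace l ∩ U).Nonempty} := by
  have h : IsOpen {γ : Br | (range γ ∩ U).Nonempty} := by
    have : {γ : Br | (range γ ∩ U).Nonempty} = ⋃ s : unitInterval, (fun γ : Br => γ s) ⁻¹' U := by
      ext γ
      simp [Set.Nonempty]
    rw [this]
    exact isOpen_iUnion fun s => hU.preimage (continuous_eval_const s)
  simp only [← range_lp]
  exact (measurable_snd.comp measurable_lp) h.measurableSet

theorem measurable_cod {U : ℕ → Set ℂ} (hU : ∀ i, IsOpen (U i)) : Measurable (cod U) :=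
  measurable_pi_lambda _ fun i => measurableSet_setOfPred.1 (measurableSet_traceHit (hU i))

end Pool.Agent.P.MP_d66c6d_pr
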