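import Pool.Agent.P.MP_d66c6d_pr.C.Iface
import Pool.Agent.P.MP_d66c6d_pr.B.Iface

/-! Step DUH of the carpet project. -/

namespace Pool.Agent.P.MP_d66c6d_pr

open MeasureTheory ProbabilityTheory Set Metric Filter Topology
open scoped ENNReal ComplexConjugate

namespace DuhA

theorem key (hMARK : S_MARK) (hREV : S_REV) {ν : Measure Br} (hν : IsBridge ν) (x y : ℂ)
    {A B C D : TP → ℝ≥0∞} {V : ℂ → ℝ≥0∞} (hB : Measurable B) (hC : Measurable C)
    (hD : Measurable D) (hV : Measurable V)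
    (h : ∀ t : ℝ, 0 ≤ t → ∀ γ : Br, A (t, γ) = B (t, γ) + ENNReal.ofReal t *
      ∫⁻ s in Ioo (0 : ℝ) 1, C (s * t, sub 0 s γ) * (V (sub 0 s γ 1) * D ((1 - s) * t, sub s 1 γ))) :
    ∫⁻ p, A p ∂grM ν x y = ∫⁻ p, B p ∂grM ν x y +
      ∫⁻ z, (∫⁻ p, C p ∂grM ν x z) * (V z * ∫⁻ p, D p ∂grM ν z y) := by
  have hR := (hREV.2 ν hν).2.2.2.2.2.1
  have hE : Measurable fun p : TP => V (p.2 1) :=
    hV.comp (Measurable.evalBr measurable_snd measurable_const)
  have hM := hMARK ν hν x y (fun r => C r.1 * (V (r.1.2 1) * D r.2))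
    ((hC.comp measurable_fst).mul ((hE.comp measurable_fst).mul (hD.comp measurable_snd)))
  rw [lintegral_congr_ae ((hR x y).mono fun p hp => h p.1 hp.1.le p.2), lintegral_add_left hB, hM]
  congr 1
  refine lintegral_congr fun z => ?_
  rw [← lintegral_mul_const _ hC]
  refine lintegral_congr_ae ((hR x z).mono fun p hp => ?_)
  simp only [hp.2.2]
  rw [lintegral_const_mul _ (hD.const_mul _), lintegral_const_mul _ hD]

end DuhA

theorem p_DUH (hDUP : S_DUP) (hMARK : S_MARK) (hREV : S_REV) :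
    S_DUH := by
  intro ν hν O q hO hc hq h0 x y
  have m0 := measurable_wt hO (q := 0) measurable_const
  have m1 := measurable_wt hO hq
  exact ⟨DuhA.key hMARK hREV hν x y m1 m0 m1 hq.ennreal_ofReal
      fun t ht γ => (hDUP O q hc hq h0 t ht γ).1,
    DuhA.key hMARK hREV hν x y m1 m1 m0 hq.ennreal_ofReal
      fun t ht γ => (hDUP O q hc hq h0 t ht γ).2⟩

end Pool.Agent.P.MP_d66c6d_pr
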