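import Pool.Agent.P.MP_d66c6d_pr.C.Iface
import Pool.Agent.P.MP_d66c6d_pr.B.Iface

/-! Step DUP of the carpet project. -/

namespace Pool.Agent.P.MP_d66c6d_pr

open MeasureTheory ProbabilityTheory Set Metric Filter Topology
open scoped ENNReal ComplexConjugate

namespace DupA

theorem lint_Ioo {f : ℝ → ℝ} (hf : Continuous f) (h0 : ∀ x, 0 ≤ f x) :
    ∫⁻ s in Ioo (0 : ℝ) 1, ENNReal.ofReal (f s) = ENNReal.ofReal (∫ s in (0 : ℝ)..1, f s) := by
  rw [intervalIntegral.integral_of_le zero_le_one, integral_Ioc_eq_integral_Ioo,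
    ofReal_integral_eq_lintegral_ofReal]
  · exact (hf.integrableOn_Icc (a := 0) (b := 1)).mono_set Ioo_subset_Icc_self
  · exact Eventually.of_forall h0

theorem occ_sub {q : ℂ → ℝ} {γ : Br} {a : ℝ → ℝ} (ha : Continuous a) (h0 : ∀ x, 0 ≤ a x)
    (hq : ∀ r, q (γ (projIcc 0 1 zero_le_one r)) = a r) {u v t : ℝ} (huv : u ≤ v) (ht : 0 ≤ t) :
    occ (fun z => ENNReal.ofReal (q z)) ((v - u) * t, sub u v γ) =
      ENNReal.ofReal (t * ∫ r in u..v, a r) := by
  have h1 : ∫⁻ s in Ioo (0 : ℝ) 1, ENNReal.ofReal (q (sub 0 s (sub u v γ) 1)) =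
      ∫⁻ s in Ioo (0 : ℝ) 1, ENNReal.ofReal (a (u + (v - u) * s)) := by
    refine setLIntegral_congr_fun measurableSet_Ioo fun s hs => ?_
    show ENNReal.ofReal (q (sub 0 s (sub u v γ) 1)) = ENNReal.ofReal (a (u + (v - u) * s))
    rw [sub_zero_one_apply, sub_apply, hq, projIcc_of_mem zero_le_one (Ioo_subset_Icc_self hs),
      mul_comm]
  have h2 := intervalIntegral.smul_integral_comp_add_mul (a := 0) (b := 1) a (v - u) u
  simp only [smul_eq_mul, mul_zero, add_zero, mul_one, add_sub_cancel] at h2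
  show ENNReal.ofReal ((v - u) * t) * ∫⁻ s in Ioo (0 : ℝ) 1,
    ENNReal.ofReal (q (sub 0 s (sub u v γ) 1)) = _
  rw [h1, lint_Ioo (f := fun s => a (u + (v - u) * s)) (by fun_prop) fun s => h0 _,
    ← ENNReal.ofReal_mul (mul_nonneg (sub_nonneg.2 huv) ht), ← h2]
  congr 1
  ring

theorem wt_of_sub {O : Set ℂ} (q : ℂ → ℝ) {p : TP} (h : range p.2 ⊆ O) :
    wt O q p = en (occ (fun z => ENNReal.ofReal (q z)) p) :=
  indicator_of_mem (s := {p : TP | range p.2 ⊆ O}) h _

theorem wt_of_not {O : Set ℂ} (q : ℂ → ℝ) {p : TP} (h : ¬ range p.2 ⊆ O) : wt O q p = 0 :=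
  indicator_of_notMem (s := {p : TP | range p.2 ⊆ O}) h _

theorem wt_zero_of_sub {O : Set ℂ} {p : TP} (h : range p.2 ⊆ O) : wt O 0 p = 1 := by
  rw [wt_zero]
  exact indicator_of_mem (s := {p : TP | range p.2 ⊆ O}) h _

theorem real1 {a : ℝ → ℝ} (ha : Continuous a) (t : ℝ) :
    1 = Real.exp (-(t * ∫ r in (0 : ℝ)..1, a r)) +
      t * ∫ s in (0 : ℝ)..1, a s * Real.exp (-(t * ∫ r in s..1, a r)) := by
  have hd : ∀ s : ℝ, HasDerivAt (fun s => Real.exp (-(t * ∫ r in s..1, a r)))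
      (t * (a s * Real.exp (-(t * ∫ r in s..1, a r)))) s := by
    intro s
    have h1 : HasDerivAt (fun s => ∫ r in s..1, a r) (-a s) s :=
      intervalIntegral.integral_hasDerivAt_left (ha.intervalIntegrable _ _)
        (ha.stronglyMeasurableAtFilter _ _) ha.continuousAt
    have h2 := ((h1.const_mul t).neg).exp
    refine h2.congr_deriv ?_
    simp only [Pi.neg_apply]
    ring
  have hc : Continuous fun s => Real.exp (-(t * ∫ r in s..1, a r)) :=
    continuous_iff_continuousAt.2 fun s => (hd s).continuousAt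
  have h := intervalIntegral.integral_eq_sub_of_hasDerivAt (a := 0) (b := 1) (fun s _ => hd s)
    ((continuous_const.mul (ha.mul hc)).intervalIntegrable _ _)
  rw [intervalIntegral.integral_const_mul] at h
  rw [h]
  simp

theorem real2 {a : ℝ → ℝ} (ha : Continuous a) (t : ℝ) :
    1 = Real.exp (-(t * ∫ r in (0 : ℝ)..1, a r)) +
      t * ∫ s in (0 : ℝ)..1, a s * Real.exp (-(t * ∫ r in (0 : ℝ)..s, a r)) := by
  have hd : ∀ s : ℝ, HasDerivAt (fun s => -Real.exp (-(t * ∫ r in (0 : ℝ)..s, a r)))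
      (t * (a s * Real.exp (-(t * ∫ r in (0 : ℝ)..s, a r)))) s := by
    intro s
    have h1 : HasDerivAt (fun s => ∫ r in (0 : ℝ)..s, a r) (a s) s :=
      intervalIntegral.integral_hasDerivAt_right (ha.intervalIntegrable _ _)
        (ha.stronglyMeasurableAtFilter _ _) ha.continuousAt
    have h2 := (((h1.const_mul t).neg).exp).neg
    refine h2.congr_deriv ?_
    simp only [Pi.neg_apply]
    ring
  have hc : Continuous fun s => Real.exp (-(t * ∫ r in (0 : ℝ)..s, a r)) := by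
    have h := (continuous_iff_continuousAt.2 fun s => (hd s).continuousAt).neg
    exact h.congr fun s => neg_neg _
  have h := intervalIntegral.integral_eq_sub_of_hasDerivAt (a := 0) (b := 1) (fun s _ => hd s)
    ((continuous_const.mul (ha.mul hc)).intervalIntegrable _ _)
  rw [intervalIntegral.integral_const_mul] at h
  rw [h]
  simp

theorem cont_left {a : ℝ → ℝ} (ha : Continuous a) : Continuous fun s => ∫ r in s..1, a r :=
  continuous_iff_continuousAt.2 fun s =>
    (intervalIntegral.integral_hasDerivAt_left (ha.intervalIntegrable s 1)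
      (ha.stronglyMeasurableAtFilter _ _) ha.continuousAt).continuousAt

theorem cont_right {a : ℝ → ℝ} (ha : Continuous a) :
    Continuous fun s => ∫ r in (0 : ℝ)..s, a r :=
  continuous_iff_continuousAt.2 fun s =>
    (intervalIntegral.integral_hasDerivAt_right (ha.intervalIntegrable 0 s)
      (ha.stronglyMeasurableAtFilter _ _) ha.continuousAt).continuousAt

theorem fin {x y t : ℝ} (hx : 0 ≤ x) (hy : 0 ≤ y) (ht : 0 ≤ t) (h : 1 = x + t * y) :
    (1 : ℝ≥0∞) = ENNReal.ofReal x + ENNReal.ofReal t * ENNReal.ofReal y := by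
  rw [← ENNReal.ofReal_mul ht, ← ENNReal.ofReal_add hx (mul_nonneg ht hy), ← h,
    ENNReal.ofReal_one]

end DupA

open DupA in
theorem p_DUP (hCUT : S_CUT) (hOCC : S_OCC) :
    S_DUP := by
  intro O q hqc _ hq0 t ht γ
  have _ := hOCC
  obtain ⟨h01, -, hsub, -, hun, -⟩ := hCUT
  by_cases hγ : range γ ⊆ O
  · set a : ℝ → ℝ := fun r => q (γ (projIcc 0 1 zero_le_one r)) with ha'
    have ha : Continuous a :=
      hqc.comp_continuous (γ.continuous.comp continuous_projIcc) fun r => hγ ⟨_, rfl⟩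
    have h0 : ∀ x, 0 ≤ a x := fun x => hq0 _
    have hI : ∀ u v : ℝ, u ≤ v → 0 ≤ t * ∫ r in u..v, a r := fun u v huv =>
      mul_nonneg ht (intervalIntegral.integral_nonneg huv fun x _ => h0 x)
    have hw : ∀ u v : ℝ, u ≤ v → wt O q ((v - u) * t, sub u v γ) =
        ENNReal.ofReal (Real.exp (-(t * ∫ r in u..v, a r))) := by
      intro u v huv
      rw [wt_of_sub q ((hsub u v γ).trans hγ), occ_sub ha h0 (fun _ => rfl) huv ht,
        en_ofReal (hI u v huv)]
    have hw0 : ∀ u v τ : ℝ, wt O 0 (τ, sub u v γ) = 1 := fun u v τ =>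
      wt_zero_of_sub ((hsub u v γ).trans hγ)
    have hw1 : wt O q (t, γ) = ENNReal.ofReal (Real.exp (-(t * ∫ r in (0 : ℝ)..1, a r))) := by
      have := hw 0 1 zero_le_one
      rwa [sub_zero, one_mul, h01] at this
    have hl := cont_left ha
    have hr := cont_right ha
    rw [wt_zero_of_sub (p := (t, γ)) hγ, hw1]
    constructor
    · have e : ∫⁻ s in Ioo (0 : ℝ) 1, wt O 0 (s * t, sub 0 s γ) *
          (ENNReal.ofReal (q (sub 0 s γ 1)) * wt O q ((1 - s) * t, sub s 1 γ)) =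
          ∫⁻ s in Ioo (0 : ℝ) 1,
            ENNReal.ofReal (a s * Real.exp (-(t * ∫ r in s..1, a r))) := by
        refine setLIntegral_congr_fun measurableSet_Ioo fun s hs => ?_
        show wt O 0 (s * t, sub 0 s γ) *
          (ENNReal.ofReal (q (sub 0 s γ 1)) * wt O q ((1 - s) * t, sub s 1 γ)) = _
        rw [hw0, one_mul, hw s 1 hs.2.le, sub_zero_one_apply, ENNReal.ofReal_mul (h0 s)]
      rw [e, lint_Ioo (by fun_prop) fun s => mul_nonneg (h0 s) (Real.exp_pos _).le]
      exact fin (Real.exp_pos _).le (intervalIntegral.integral_nonneg zero_le_one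
        fun s _ => mul_nonneg (h0 s) (Real.exp_pos _).le) ht (real1 ha t)
    · have e : ∫⁻ s in Ioo (0 : ℝ) 1, wt O q (s * t, sub 0 s γ) *
          (ENNReal.ofReal (q (sub 0 s γ 1)) * wt O 0 ((1 - s) * t, sub s 1 γ)) =
          ∫⁻ s in Ioo (0 : ℝ) 1,
            ENNReal.ofReal (a s * Real.exp (-(t * ∫ r in (0 : ℝ)..s, a r))) := by
        refine setLIntegral_congr_fun measurableSet_Ioo fun s hs => ?_
        show wt O q (s * t, sub 0 s γ) *
          (ENNReal.ofReal (q (sub 0 s γ 1)) * wt O 0 ((1 - s) * t, sub s 1 γ)) = _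
        have := hw 0 s hs.1.le
        rw [sub_zero] at this
        rw [hw0, mul_one, this, sub_zero_one_apply, ENNReal.ofReal_mul (h0 s), mul_comm]
      rw [e, lint_Ioo (by fun_prop) fun s => mul_nonneg (h0 s) (Real.exp_pos _).le]
      exact fin (Real.exp_pos _).le (intervalIntegral.integral_nonneg zero_le_one
        fun s _ => mul_nonneg (h0 s) (Real.exp_pos _).le) ht (real2 ha t)
  · have hz : ∀ q₁ q₂ : ℂ → ℝ, ∫⁻ s in Ioo (0 : ℝ) 1, wt O q₁ (s * t, sub 0 s γ) *
        (ENNReal.ofReal (q (sub 0 s γ 1)) * wt O q₂ ((1 - s) * t, sub s 1 γ)) = 0 := by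
      intro q₁ q₂
      rw [← lintegral_zero (μ := volume.restrict (Ioo (0 : ℝ) 1))]
      refine setLIntegral_congr_fun measurableSet_Ioo fun s hs => ?_
      show wt O q₁ (s * t, sub 0 s γ) *
        (ENNReal.ofReal (q (sub 0 s γ 1)) * wt O q₂ ((1 - s) * t, sub s 1 γ)) = 0
      by_cases h1 : range (sub 0 s γ) ⊆ O
      · have h2 : ¬ range (sub s 1 γ) ⊆ O := fun h2 =>
          hγ (hun s (Ioo_subset_Icc_self hs) γ ▸ union_subset h1 h2)
        rw [wt_of_not (p := ((1 - s) * t, sub s 1 γ)) q₂ h2, mul_zero, mul_zero]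
      · rw [wt_of_not (p := (s * t, sub 0 s γ)) q₁ h1, zero_mul]
    rw [hz, hz, wt_of_not (p := (t, γ)) 0 hγ, wt_of_not (p := (t, γ)) q hγ]
    simp

end Pool.Agent.P.MP_d66c6d_pr
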