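import Pool.Agent.P.MP_d66c6d_pr.C.Iface
import Pool.Agent.P.MP_d66c6d_pr.B.Iface

/-! Step DYA of the carpet project. -/

namespace Pool.Agent.P.MP_d66c6d_pr

open MeasureTheory ProbabilityTheory Set Metric Filter Topology
open scoped ENNReal ComplexConjugate

namespace DyaA

theorem me : Measurable fun γ : Br => γ 1 := Measurable.evalBr measurable_id measurable_const

/-- The end point of the paths in `A`. -/
theorem law (hBM : S_BM) (hREV : S_REV) {ν : Measure Br} (hν : IsBridge ν) {t : ℝ} (ht : 0 < t)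
    (y : ℂ) {A : Set Br} (hA : MeasurableSet A) :
    ((bmM ν t y).restrict A).map (fun γ => γ 1) =
      volume.withDensity fun w => brM ν t y w A := by
  ext B hB
  have hm : MeasurableSet ((fun γ : Br => γ 1) ⁻¹' B ∩ A) := (me hB).inter hA
  rw [Measure.map_apply me hB, Measure.restrict_apply (me hB), withDensity_apply _ hB,
    ← lintegral_indicator_one hm, ((hBM ν hν).1 t ht y).2 _ (measurable_one.indicator hm),
    ← lintegral_indicator hB]
  refine lintegral_congr fun w => ?_
  rw [lintegral_indicator_one hm]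
  have h1 := (hREV.2 ν hν).2.2.2.2.1 t y w
  by_cases hw : w ∈ B
  · rw [indicator_of_mem hw]
    refine measure_congr ?_
    filter_upwards [h1] with γ hγ
    exact propext ⟨fun h => h.2, fun h => ⟨show γ 1 ∈ B from hγ.2 ▸ hw, h⟩⟩
  · rw [indicator_of_notMem hw]
    refine measure_mono_null (fun γ hγ => ?_) (ae_iff.1 h1)
    exact fun h => hw (h.2 ▸ hγ.1)

theorem law_gm {ν : Measure Br} (hν : IsBridge ν) (hREV : S_REV) (t : ℝ) (y : ℂ) :
    (bmM ν t y).map (fun γ => γ 1) = (gm t).map fun z => y + z := by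
  have := hν.gauss
  have : SFinite (gm t) := by unfold gm; infer_instance
  rw [bmM, Measure.map_map me (by fun_prop)]
  have h : ∀ᵐ p ∂(gm t).prod ν, p.2 1 = 0 :=
    Measure.quasiMeasurePreserving_snd.ae ((hREV.2 ν hν).1.mono fun _ h => h.2)
  rw [Measure.map_congr (g := (fun z => y + z) ∘ Prod.fst) (h.mono fun p hp => by
    simp [seg_apply, hp]), ← Measure.map_map (by fun_prop) measurable_fst,
    Measure.map_fst_prod, measure_univ, one_smul]

/-- A comparison of two integrals along the paths. -/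
theorem cmp {P : Measure Br} [IsProbabilityMeasure P] {f : Br → ℂ} {A E : Set Br}
    (hA : MeasurableSet A) (hE : MeasurableSet E) {a b M : ℝ}
    (h : ∀ᵐ γ ∂P, ‖f γ‖ ≤ a + A.indicator (fun _ => b) γ + E.indicator (fun _ => M) γ) :
    ‖∫ γ, f γ ∂P‖ ≤ a + b * P.real A + M * P.real E := by
  have i1 : Integrable (A.indicator fun _ : Br => b) P := (integrable_const b).indicator hA
  have i2 : Integrable (E.indicator fun _ : Br => M) P := (integrable_const M).indicator hE
  refine (norm_integral_le_of_norm_le (((integrable_const a).add i1).add i2) h).trans_eq ?_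
  rw [integral_add' ((integrable_const a).add i1) i2, integral_add' (integrable_const a) i1,
    integral_indicator hA, integral_indicator hE]
  simp [mul_comm]

theorem tail (hBM : S_BM) {ν : Measure Br} (hν : IsBridge ν) {r : ℝ} (hr : 0 < r) {ε : ℝ}
    (hε : 0 < ε) : ∃ δ₀ > (0 : ℝ), ∀ δ ∈ Ioo 0 δ₀, ∀ y,
      (bmM ν δ y).real {γ | range γ ⊆ ball y r}ᶜ ≤ ε * δ := by
  obtain ⟨c, C, hc, hC, -, h⟩ := (hBM ν hν).2
  refine ⟨ε * (c * r ^ 2) ^ 2 / (2 * C), by positivity, fun δ hδ y => ?_⟩
  refine (ENNReal.toReal_le_of_le_ofReal (by positivity) (h δ hδ.1 r hr y)).trans ?_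
  have h0 := hδ.1
  have h1 := Real.pow_div_factorial_le_exp (c * r ^ 2 / δ) (by positivity) 2
  have h2 := (lt_div_iff₀ (by positivity)).1 hδ.2
  rw [show -c * r ^ 2 / δ = -(c * r ^ 2 / δ) by ring, Real.exp_neg, ← div_eq_mul_inv,
    div_le_iff₀ (Real.exp_pos _)]
  refine le_trans ?_ (mul_le_mul_of_nonneg_left h1 (by positivity))
  rw [show ε * δ * ((c * r ^ 2 / δ) ^ 2 / ((2 : ℕ).factorial : ℝ)) =
    ε * (c * r ^ 2) ^ 2 / (δ * 2) by simp [Nat.factorial]; field_simp, le_div_iff₀ (by positivity)]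
  linarith

theorem front {O : Set ℂ} (hO : IsOpen O) {γ : Br} (h0 : γ 0 ∈ O) (h : ¬ range γ ⊆ O) :
    ∃ b ∈ frontier O, b ∈ range γ := by
  by_contra hn
  refine h ((isPreconnected_range γ.continuous).subset_of_closure_inter_subset hO
    ⟨_, ⟨0, rfl⟩, h0⟩ fun z hz => ?_)
  by_contra hz'
  exact hn ⟨z, hO.frontier_eq ▸ ⟨hz.1, hz'⟩, hz.2⟩

end DyaA

open DyaA in
theorem p_DYA (hKK : S_KK) (hBM : S_BM) (hGM : S_GM) (hREV : S_REV) :
    S_DYA := by
  have _ := hGM
  intro ν hν O u h M r₀ H
  have mA := (isOpen_rangeSub H.op).measurableSet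
  have hO : O ⊆ thickening r₀ O := self_subset_thickening H.pos O
  have key : ∀ t : ℝ, 0 < t → ∀ y, ∫ w, u w ∂volume.withDensity (KK ν O t y) =
      ∫ γ, {γ : Br | range γ ⊆ O}.indicator (fun γ => u (γ 1)) γ ∂bmM ν t y := fun t ht y => by
    rw [integral_indicator mA, ← integral_map me.aemeasurable H.mu.aestronglyMeasurable,
      law hBM hREV hν ht y mA]
    rfl
  have int : ∀ t : ℝ, 0 < t → ∀ (y : ℂ) (A : Set Br), MeasurableSet A →
      (∀ γ ∈ A, γ 1 ∈ thickening r₀ O) →
      Integrable (A.indicator fun γ => u (γ 1)) (bmM ν t y) := fun t ht y A hA hA' => by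
    have := ((hBM ν hν).1 t ht y).1
    refine Integrable.of_bound ((H.mu.comp me).indicator hA).aestronglyMeasurable |M|
      (Eventually.of_forall fun γ => ?_)
    by_cases hγ : γ ∈ A
    · rw [indicator_of_mem hγ]
      exact (H.bu _ (hA' γ hγ)).trans (le_abs_self M)
    · simp [hγ]
  have iA := fun t ht y => int t ht y _ mA fun γ hγ => hO (hγ ⟨1, rfl⟩)
  refine ⟨fun ε hε => ?_, fun x hx => ?_⟩
  · obtain ⟨r, hr, hfr⟩ := H.fr ε hε
    obtain ⟨δ₁, hδ₁, hgen⟩ := H.gen (ε / 2) (half_pos hε)
    have hr1 : 0 < min r₀ (r / 2) := lt_min H.pos (half_pos hr)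
    obtain ⟨δ₂, hδ₂, htail⟩ := tail hBM hν hr1 (show 0 < ε / 2 / (|M| + 1) by positivity)
    refine ⟨min δ₁ δ₂, lt_min hδ₁ hδ₂, fun δ hδ y hy => ?_⟩
    have := ((hBM ν hν).1 δ hδ.1 y).1
    have mB : MeasurableSet {γ : Br | γ 1 ∈ ball y r₀} := me measurableSet_ball
    have hB : ∀ γ ∈ {γ : Br | γ 1 ∈ ball y r₀}, γ 1 ∈ thickening r₀ O := fun γ hγ =>
      ball_subset_thickening hy r₀ hγ
    have e : ∫ z in ball 0 r₀, u (y + z) ∂gm δ =
        ∫ γ, {γ : Br | γ 1 ∈ ball y r₀}.indicator (fun γ => u (γ 1)) γ ∂bmM ν δ y := by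
      have h1 := integral_map (μ := bmM ν δ y) me.aemeasurable
        (H.mu.indicator (measurableSet_ball (x := y) (ε := r₀))).aestronglyMeasurable
      rw [law_gm hν hREV, integral_map (by fun_prop)
        (H.mu.indicator measurableSet_ball).aestronglyMeasurable] at h1
      rw [← integral_indicator measurableSet_ball]
      refine Eq.trans (integral_congr_ae (Eventually.of_forall fun z => ?_)) h1
      simp [indicator, dist_eq_norm]
    have h1 := hgen δ ⟨hδ.1, hδ.2.trans_le (min_le_left _ _)⟩ y hy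
    have h2 := htail δ ⟨hδ.1, hδ.2.trans_le (min_le_right _ _)⟩ y
    have h3 := cmp (P := bmM ν δ y) (f := fun γ => {γ : Br | range γ ⊆ O}.indicator
      (fun γ => u (γ 1)) γ - {γ : Br | γ 1 ∈ ball y r₀}.indicator (fun γ => u (γ 1)) γ)
      mA.compl (isOpen_rangeSub (isOpen_ball (x := y) (ε := min r₀ (r / 2)))).measurableSet.compl
      (a := 0) (b := ε) (M := |M| + 1) (by
        filter_upwards [(hREV.2 ν hν).2.2.2.2.2.2.1 δ y] with γ h0
        have hM := abs_nonneg M
        have hM' := le_abs_self M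
        by_cases hE : range γ ⊆ ball y (min r₀ (r / 2))
        · have h4 : γ 1 ∈ ball y r₀ := ball_subset_ball (min_le_left _ _) (hE ⟨1, rfl⟩)
          by_cases hA : range γ ⊆ O
          · rw [indicator_of_mem (s := {γ : Br | γ 1 ∈ ball y r₀}) h4]
            simp [hA, hE]
          · obtain ⟨b, hb, hb'⟩ := front H.op (h0 ▸ hy) hA
            have h5 := (lt_min_iff.1 (mem_ball.1 (hE hb'))).2
            have h6 := (lt_min_iff.1 (mem_ball.1 (hE ⟨1, rfl⟩))).2
            have h7 := hfr _ (hB γ h4) b hb (by linarith [dist_triangle_right (γ 1) b y])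
            rw [indicator_of_mem (s := {γ : Br | γ 1 ∈ ball y r₀}) h4]
            simpa [hA, hE] using h7
        · by_cases hA : range γ ⊆ O <;> by_cases h4 : γ ∈ {γ : Br | γ 1 ∈ ball y r₀}
          · rw [indicator_of_mem h4]
            simp [hA, hE]
            linarith
          · have := H.bu _ (hO (hA ⟨1, rfl⟩))
            rw [indicator_of_notMem h4]
            simp [hA, hE]
            linarith
          · have := H.bu _ (hB γ h4)
            rw [indicator_of_mem h4]
            simp [hA, hE]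
            linarith
          · rw [indicator_of_notMem h4]
            simp [hA, hE]
            linarith)
    rw [integral_sub (iA δ hδ.1 y) (int δ hδ.1 y _ mB hB), ← key δ hδ.1, ← e,
      measureReal_compl mA, probReal_univ] at h3
    rw [(((hKK ν hν O H.op).2.2.2.2.2.2.1 δ hδ.1 y).1)]
    have h4 := norm_add_le (∫ w, u w ∂volume.withDensity (KK ν O δ y) -
      ∫ z in ball 0 r₀, u (y + z) ∂gm δ) (∫ z in ball 0 r₀, u (y + z) ∂gm δ - u y - δ * h y)
    rw [show ∀ a b c d : ℂ, a - b + (b - c - d) = a - c - d from fun _ _ _ _ => by ring] at h4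
    have h5 := mul_le_mul_of_nonneg_left h2 (show 0 ≤ |M| + 1 by positivity)
    rw [← mul_assoc, mul_div_cancel₀ _ (by positivity)] at h5
    rw [measureReal_def] at h3
    linarith
  · refine Metric.tendsto_nhds.2 fun ε hε => ?_
    obtain ⟨r, hr, hb⟩ := Metric.mem_nhds_iff.1 (inter_mem (H.op.mem_nhds hx)
      ((H.cu.continuousAt (H.op.mem_nhds hx)).preimage_mem_nhds (ball_mem_nhds _ (half_pos hε))))
    obtain ⟨δ₂, hδ₂, htail⟩ := tail hBM hν hr (show 0 < ε / 2 / (2 * |M| + 1) by positivity)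
    filter_upwards [Ioo_mem_nhdsGT (lt_min hδ₂ one_pos)] with t ht
    have := ((hBM ν hν).1 t ht.1 x).1
    have h2 := htail t ⟨ht.1, ht.2.trans_le (min_le_left _ _)⟩ x
    have h3 := cmp (P := bmM ν t x) (f := fun γ => {γ : Br | range γ ⊆ O}.indicator
      (fun γ => u (γ 1)) γ - u x) MeasurableSet.empty
      (isOpen_rangeSub (isOpen_ball (x := x) (ε := r))).measurableSet.compl
      (a := ε / 2) (b := 0) (M := 2 * |M| + 1) (Eventually.of_forall fun γ => by
        have hM := abs_nonneg M
        have hM' := le_abs_self M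
        have hx' := H.bu x (hO hx)
        by_cases hE : range γ ⊆ ball x r
        · have hA : range γ ⊆ O := fun z hz => (hb (hE hz)).1
          have := mem_ball.1 (hb (hE ⟨1, rfl⟩)).2
          rw [dist_eq_norm] at this
          simpa [hA, hE] using this.le
        · by_cases hA : range γ ⊆ O
          · have := H.bu _ (hO (hA ⟨1, rfl⟩))
            have := norm_sub_le (u (γ 1)) (u x)
            simp [hA, hE]
            linarith
          · simp [hA, hE]
            linarith)
    rw [integral_sub (iA t ht.1 x) (integrable_const _), ← key t ht.1, integral_const,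
      probReal_univ, one_smul] at h3
    have h5 := mul_le_mul_of_nonneg_left h2 (show 0 ≤ 2 * |M| + 1 by positivity)
    rw [← mul_assoc, mul_div_cancel₀ _ (by positivity)] at h5
    have h6 := ht.2.trans_le (min_le_right _ _)
    rw [dist_eq_norm]
    nlinarith [ht.1]

end Pool.Agent.P.MP_d66c6d_pr
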