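import Pool.Agent.P.MP_d66c6d_pr.C.Iface

/-! Step DYN of the carpet project. -/

namespace Pool.Agent.P.MP_d66c6d_pr

open MeasureTheory ProbabilityTheory Set Metric Filter Topology
open scoped ENNReal ComplexConjugate

namespace DynA

theorem map_snd_wd {α : Type*} [MeasurableSpace α] (μ : Measure α) [SFinite μ]
    {k : α → ℂ → ℝ≥0∞} (hk : Measurable fun p : α × ℂ => k p.1 p.2) :
    ((μ.prod (volume : Measure ℂ)).withDensity fun p => k p.1 p.2).map Prod.snd =
      volume.withDensity fun w => ∫⁻ a, k a w ∂μ := by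
  ext s hs
  rw [Measure.map_apply measurable_snd hs, withDensity_apply _ (measurable_snd hs),
    withDensity_apply _ hs]
  have h1 : (Prod.snd ⁻¹' s : Set (α × ℂ)) = univ ×ˢ s := by
    ext p
    simp
  rw [h1, ← Measure.prod_restrict, Measure.restrict_univ, lintegral_prod_symm _ hk.aemeasurable]

theorem mix {α E : Type*} [MeasurableSpace α] [NormedAddCommGroup E] [NormedSpace ℝ E]
    (μ : Measure α) [SFinite μ] {k : α → ℂ → ℝ≥0∞}
    (hk : Measurable fun p : α × ℂ => k p.1 p.2) (hk' : ∀ a w, k a w ≠ ∞) {φ : ℂ → E}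
    (hφ : Integrable φ (volume.withDensity fun w => ∫⁻ a, k a w ∂μ)) :
    Integrable (fun a => ∫ w, φ w ∂volume.withDensity (k a)) μ ∧
    ∫ w, φ w ∂(volume.withDensity fun w => ∫⁻ a, k a w ∂μ) =
      ∫ a, (∫ w, φ w ∂volume.withDensity (k a)) ∂μ := by
  have hka : ∀ a, Measurable (k a) := fun a => hk.comp (measurable_const.prodMk measurable_id)
  have hin : ∀ a, ∫ w, φ w ∂volume.withDensity (k a) = ∫ w, (k a w).toReal • φ w := fun a =>
    integral_withDensity_eq_integral_toReal_smul (hka a)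
      (Eventually.of_forall fun w => (hk' a w).lt_top) φ
  rw [← map_snd_wd μ hk] at hφ ⊢
  have h1 := (integrable_map_measure hφ.aestronglyMeasurable measurable_snd.aemeasurable).1 hφ
  have hlt : ∀ᵐ p ∂μ.prod (volume : Measure ℂ), k p.1 p.2 < ∞ :=
    Eventually.of_forall fun p => (hk' p.1 p.2).lt_top
  have h2 := (integrable_withDensity_iff_integrable_smul' hk hlt).1 h1
  simp_rw [hin]
  refine ⟨h2.integral_prod_left, ?_⟩
  rw [integral_map measurable_snd.aemeasurable hφ.aestronglyMeasurable,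
    integral_withDensity_eq_integral_toReal_smul hk hlt]
  exact integral_prod _ h2

/-- The one step identity for the Green measure. -/
theorem step (hKK : S_KK) {ν : Measure Br} (hν : IsBridge ν) {O : Set ℂ} (hO : IsOpen O) (x : ℂ)
    {δ : ℝ} (hδ : 0 < δ) {E : Type*} [NormedAddCommGroup E] [NormedSpace ℝ E] {φ : ℂ → E}
    (hφ : Integrable φ (volume.withDensity (GG ν O 0 x))) :
    IntegrableOn (fun t => ∫ w, φ w ∂volume.withDensity (KK ν O t x)) (Ioc 0 δ) ∧
    Integrable (fun y => ∫ w, φ w ∂volume.withDensity (KK ν O δ y))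
      (volume.withDensity (GG ν O 0 x)) ∧
    ∫ w, φ w ∂volume.withDensity (GG ν O 0 x) =
      (∫ t in Ioc 0 δ, ∫ w, φ w ∂volume.withDensity (KK ν O t x)) +
      ∫ y, (∫ w, φ w ∂volume.withDensity (KK ν O δ y)) ∂volume.withDensity (GG ν O 0 x) := by
  have := hν.prob
  obtain ⟨-, hle, -, -, -, -, -, hid⟩ := hKK ν hν O hO
  have hne : ∀ t y w, KK ν O t y w ≠ ∞ := fun t y w =>
    ne_top_of_le_ne_top (hk_ne_top _ _) (hle t y w)
  have hG : Measurable (GG ν O 0 x) :=
    measurable_GG ν hO (q := 0) measurable_const measurable_const measurable_id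
  have hk1 : Measurable fun p : ℝ × ℂ => KK ν O p.1 x p.2 :=
    measurable_KK ν hO measurable_fst measurable_const measurable_snd
  have hk2 : Measurable fun p : ℂ × ℂ => KK ν O δ p.1 p.2 :=
    measurable_KK ν hO measurable_const measurable_fst measurable_snd
  have hg1 : Measurable fun w => ∫⁻ t in Ioc (0 : ℝ) δ, KK ν O t x w :=
    hk1.lintegral_prod_left'
  have hm : (volume : Measure ℂ).withDensity (GG ν O 0 x) =
      (volume.withDensity fun w => ∫⁻ t in Ioc (0 : ℝ) δ, KK ν O t x w) +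
      volume.withDensity fun w => ∫⁻ y, KK ν O δ y w ∂volume.withDensity (GG ν O 0 x) := by
    rw [← withDensity_add_left hg1]
    congr 1
    funext w
    have hw : Measurable fun y => KK ν O δ y w :=
      measurable_KK ν hO measurable_const measurable_id measurable_const
    rw [Pi.add_apply, lintegral_withDensity_eq_lintegral_mul _ hG hw]
    exact hid δ hδ x w
  have hφ' := hφ
  rw [hm, integrable_add_measure] at hφ'
  obtain ⟨a1, a2⟩ := mix (volume.restrict (Ioc (0 : ℝ) δ)) (k := fun t w => KK ν O t x w) hk1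
    (fun t w => hne t x w) hφ'.1
  obtain ⟨b1, b2⟩ := mix (volume.withDensity (GG ν O 0 x)) (k := fun y w => KK ν O δ y w) hk2
    (fun y w => hne δ y w) hφ'.2
  refine ⟨a1, b1, ?_⟩
  rw [← a2, ← b2, ← integral_add_measure hφ'.1 hφ'.2, ← hm]

theorem mass_eq {k : ℂ → ℝ≥0∞} :
    ∫ _w, (1 : ℝ) ∂(volume : Measure ℂ).withDensity k = (∫⁻ w, k w).toReal := by
  rw [integral_const, smul_eq_mul, mul_one, Measure.real, withDensity_apply _ MeasurableSet.univ,
    Measure.restrict_univ]

end DynA

open DynA in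
theorem p_DYN (hKK : S_KK) (hFIN : S_FIN) (hDYA : S_DYA) :
    S_DYN := by
  intro ν hν O u h M r₀ H x hx
  obtain ⟨C, hC, hCx⟩ := hFIN ν hν O H.op H.bd
  obtain ⟨hA, hB⟩ := hDYA ν hν O u h M r₀ H
  obtain ⟨-, -, -, -, hz, -, hmass, -⟩ := hKK ν hν O H.op
  set m : Measure ℂ := volume.withDensity (GG ν O 0 x) with hm
  have hfin : IsFiniteMeasure m := ⟨by
    rw [hm, withDensity_apply _ MeasurableSet.univ, Measure.restrict_univ]
    exact (hCx x).trans_lt hC.lt_top⟩
  have hae : ∀ᵐ y ∂m, y ∈ O := by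
    rw [ae_iff]
    change m Oᶜ = 0
    rw [hm, withDensity_apply _ H.op.measurableSet.compl]
    exact setLIntegral_eq_zero H.op.measurableSet.compl fun y hy => hz 0 x y (Or.inr hy)
  have hu : Integrable u m := Integrable.of_bound H.mu.aestronglyMeasurable M
    (hae.mono fun y hy => H.bu y (self_subset_thickening H.pos O hy))
  have hh : Integrable h m := Integrable.of_bound H.mh.aestronglyMeasurable M
    (hae.mono fun y hy => H.bh y hy)
  set c : ℝ := m.real univ with hc
  have hc0 : 0 ≤ c := measureReal_nonneg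
  have key : ∀ ε > (0 : ℝ), ‖∫ y, h y ∂m + u x‖ ≤ ε * (c + 2) := by
    intro ε hε
    obtain ⟨δ₀, hδ₀, hA'⟩ := hA ε hε
    have hB' := (Metric.tendsto_nhds.1 (hB x hx)) ε hε
    obtain ⟨δ₁, hδ₁, hB''⟩ := (mem_nhdsGT_iff_exists_Ioo_subset).1 hB'
    have hδ₁' : (0 : ℝ) < δ₁ := hδ₁
    set δ : ℝ := min δ₀ δ₁ / 2 with hδdef
    have hmin : 0 < min δ₀ δ₁ := lt_min hδ₀ hδ₁'
    have hδ : 0 < δ := by positivity
    have hδ0 : δ < δ₀ := by
      have := min_le_left δ₀ δ₁
      linarith
    have hδ1 : δ < δ₁ := by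
      have := min_le_right δ₀ δ₁
      linarith
    obtain ⟨a1, a2, a3⟩ := step hKK hν H.op x hδ hu
    obtain ⟨b1, b2, b3⟩ := step hKK hν H.op x hδ (φ := fun _ => (1 : ℝ)) (integrable_const _)
    rw [← hm] at a2 a3 b2 b3
    simp only [mass_eq] at b1 b2
    rw [integral_const, smul_eq_mul, mul_one, ← hc] at b3
    simp only [mass_eq] at b3
    have hvol : (volume : Measure ℝ).real (Ioc 0 δ) = δ := by
      rw [Real.volume_real_Ioc_of_le hδ.le, sub_zero]
    have b4 : ∫ t in Ioc 0 δ, (∫⁻ w, KK ν O t x w).toReal ≤ δ := by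
      have h1 : ‖∫ t in Ioc 0 δ, (∫⁻ w, KK ν O t x w).toReal‖ ≤
          1 * (volume : Measure ℝ).real (Ioc 0 δ) := by
        refine norm_setIntegral_le_of_norm_le_const (by simp) fun t ht => ?_
        rw [Real.norm_of_nonneg ENNReal.toReal_nonneg]
        exact ENNReal.toReal_le_of_le_ofReal zero_le_one (by simpa using (hmass t ht.1 x).2)
      rw [hvol, one_mul] at h1
      exact (le_abs_self _).trans h1
    have e1 : ‖∫ y, ((∫ w, u w ∂volume.withDensity (KK ν O δ y)) - u y - δ * h y) ∂m‖ ≤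
        ε * δ * c + ε * δ := by
      have h0 : Integrable (fun y => ε * (1 - (∫⁻ w, KK ν O δ y w).toReal)) m :=
        ((integrable_const _).sub b2).const_mul ε
      have h1 : Integrable (fun y => ε * δ + ε * (1 - (∫⁻ w, KK ν O δ y w).toReal)) m :=
        (integrable_const _).add h0
      refine (norm_integral_le_of_norm_le h1
        (hae.mono fun y hy => hA' δ ⟨hδ, hδ0⟩ y hy)).trans ?_
      rw [integral_add (integrable_const _) h0,
        integral_const_mul ε (fun y => 1 - (∫⁻ w, KK ν O δ y w).toReal), integral_sub (integrable_const _) b2, integral_const, integral_const,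
        smul_eq_mul, smul_eq_mul, mul_one, ← hc]
      have : c - ∫ y, (∫⁻ w, KK ν O δ y w).toReal ∂m ≤ δ := by linarith
      nlinarith [mul_le_mul_of_nonneg_left this hε.le]
    have a4 : Integrable (fun y => (∫ w, u w ∂volume.withDensity (KK ν O δ y)) - u y) m :=
      a2.sub hu
    rw [integral_sub a4 (hh.const_mul _), integral_sub a2 hu, integral_const_mul] at e1
    have e2 : ‖(∫ t in Ioc 0 δ, ∫ w, u w ∂volume.withDensity (KK ν O t x)) - δ * u x‖ ≤
        ε * δ := by
      have h1 : ‖∫ t in Ioc 0 δ, ((∫ w, u w ∂volume.withDensity (KK ν O t x)) - u x)‖ ≤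
          ε * (volume : Measure ℝ).real (Ioc 0 δ) := by
        refine norm_setIntegral_le_of_norm_le_const (by simp) fun t ht => ?_
        have h2 := hB'' ⟨ht.1, ht.2.trans_lt hδ1⟩
        rw [mem_ofPred_eq, dist_eq_norm] at h2
        exact h2.le
      rw [integral_sub a1 (integrable_const _), integral_const, hvol] at h1
      simpa [hvol] using h1
    have e3 : ‖(δ : ℂ) * (∫ y, h y ∂m + u x)‖ ≤ ε * δ * c + ε * δ + ε * δ := by
      have h1 : (δ : ℂ) * (∫ y, h y ∂m + u x) =
          -((∫ y, (∫ w, u w ∂volume.withDensity (KK ν O δ y)) ∂m) - ∫ y, u y ∂m -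
            δ * ∫ y, h y ∂m) -
          ((∫ t in Ioc 0 δ, ∫ w, u w ∂volume.withDensity (KK ν O t x)) - δ * u x) := by
        rw [a3]
        ring
      rw [h1]
      refine (norm_sub_le _ _).trans ?_
      rw [norm_neg]
      linarith
    rw [norm_mul, Complex.norm_real, Real.norm_of_nonneg hδ.le] at e3
    refine le_of_mul_le_mul_left ?_ hδ
    linarith
  have h0 : ‖∫ y, h y ∂m + u x‖ ≤ 0 := by
    refine le_of_forall_pos_le_add fun ε hε => ?_
    have h1 := key (ε / (c + 2)) (by positivity)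
    rw [div_mul_cancel₀ _ (by positivity)] at h1
    linarith
  exact eq_neg_of_add_eq_zero_left (norm_le_zero_iff.1 h0)

end Pool.Agent.P.MP_d66c6d_pr
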