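import Pool.Agent.P.MP_d66c6d_pr.C.Iface
import Pool.Agent.P.MP_d66c6d_pr.B.Iface

/-! Step FIN of the carpet project. -/

namespace Pool.Agent.P.MP_d66c6d_pr

open MeasureTheory ProbabilityTheory Set Metric Filter Topology
open scoped ENNReal ComplexConjugate

namespace FinA

theorem hk_le {d : ℝ} (hd : 0 < d) (z : ℂ) : hk d z ≤ ENNReal.ofReal (1 / (2 * Real.pi * d)) := by
  unfold hk
  refine ENNReal.ofReal_le_ofReal (div_le_div_of_nonneg_right ?_ (by positivity))
  rw [Real.exp_le_one_iff]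
  exact div_nonpos_of_nonpos_of_nonneg (neg_nonpos.2 (sq_nonneg _)) (by positivity)

theorem half {O : Set ℂ} (hO : IsOpen O) (hb : Bornology.IsBounded O) :
    ∃ d : ℝ, 0 < d ∧ ∀ (k : ℂ → ℝ≥0∞) (x : ℂ), (∀ y, k y ≤ hk d (y - x)) →
      (∀ y, y ∉ O → k y = 0) → ∫⁻ y, k y ≤ 2⁻¹ := by
  have hV : volume O ≠ ∞ := hb.measure_lt_top.ne
  have h0 : 0 ≤ (volume O).toReal := ENNReal.toReal_nonneg
  have hd : 0 < (volume O).toReal + 1 := by linarith
  refine ⟨(volume O).toReal + 1, hd, fun k x h1 h2 => ?_⟩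
  calc ∫⁻ y, k y ≤ ∫⁻ y, O.indicator
        (fun _ => ENNReal.ofReal (1 / (2 * Real.pi * ((volume O).toReal + 1)))) y := by
        refine lintegral_mono fun y => ?_
        by_cases hy : y ∈ O
        · rw [indicator_of_mem hy]
          exact (h1 y).trans (hk_le hd _)
        · rw [h2 y hy]
          exact zero_le
    _ = ENNReal.ofReal (1 / (2 * Real.pi * ((volume O).toReal + 1)) * (volume O).toReal) := by
        rw [lintegral_indicator_const hO.measurableSet, ENNReal.ofReal_mul (by positivity),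
          ENNReal.ofReal_toReal hV]
    _ ≤ ENNReal.ofReal (2⁻¹) := by
        refine ENNReal.ofReal_le_ofReal ?_
        rw [div_mul_eq_mul_div, one_mul, div_le_iff₀ (by positivity)]
        have := Real.pi_gt_three
        nlinarith
    _ = 2⁻¹ := by
        rw [ENNReal.ofReal_inv_of_pos two_pos, ENNReal.ofReal_ofNat]

theorem cover {d : ℝ} (hd : 0 < d) :
    Ioi (0 : ℝ) ⊆ ⋃ n : ℕ, Ioc (n * d) ((n + 1) * d) := by
  intro t ht
  have h1 : 0 < t / d := div_pos ht hd
  have h2 : 1 ≤ ⌈t / d⌉₊ := Nat.one_le_iff_ne_zero.2 (Nat.ceil_pos.2 h1).ne'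
  obtain ⟨n, hn⟩ := Nat.exists_eq_add_of_le' h2
  refine mem_iUnion.2 ⟨n, ?_, ?_⟩
  · rw [← lt_div_iff₀ hd]
    exact Nat.lt_ceil.1 (by omega)
  · rw [← div_le_iff₀ hd]
    have := Nat.le_ceil (t / d)
    rw [hn] at this
    exact_mod_cast this

end FinA

theorem p_FIN (hKK : S_KK) (hGM : S_GM) :
    S_FIN := by
  have _ := hGM
  intro ν hν O hO hb
  have := hν.prob
  obtain ⟨h1, h2, h3, -, -, h6, h7, -⟩ := hKK ν hν O hO
  obtain ⟨d, hd, hh⟩ := FinA.half hO hb
  have hd2 : ∀ x, ∫⁻ y, KK ν O d x y ≤ 2⁻¹ := fun x =>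
    hh _ x (h2 d x) fun y hy => h3 d x y (Or.inr hy)
  have hstep : ∀ t : ℝ, 0 < t → ∀ x, ∫⁻ y, KK ν O (t + d) x y ≤ (∫⁻ y, KK ν O t x y) * 2⁻¹ := by
    intro t ht x
    have m1 : Measurable fun z => KK ν O t x z :=
      measurable_KK ν hO measurable_const measurable_const measurable_id
    have m2 : Measurable fun p : ℂ × ℂ => KK ν O t x p.2 * KK ν O d p.2 p.1 :=
      (m1.comp measurable_snd).mul
        (measurable_KK ν hO measurable_const measurable_snd measurable_fst)
    simp_rw [h1 t d ht hd x]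
    rw [lintegral_lintegral_swap m2.aemeasurable, ← lintegral_mul_const _ m1]
    refine lintegral_mono fun z => ?_
    rw [lintegral_const_mul _
      (measurable_KK ν hO measurable_const measurable_const measurable_id')]
    exact mul_le_mul_right (hd2 z) _
  have hind : ∀ (n : ℕ) (t : ℝ), n * d < t → ∀ x, ∫⁻ y, KK ν O t x y ≤ 2⁻¹ ^ n := by
    intro n
    induction n with
    | zero =>
      intro t ht x
      rw [pow_zero]
      exact (h7 t (by simpa using ht) x).2
    | succ n ih =>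
      intro t ht x
      have a1 : (n : ℝ) * d < t - d := by
        push_cast at ht
        linarith
      have a2 : 0 < t - d := lt_of_le_of_lt (by positivity) a1
      have a3 := hstep (t - d) a2 x
      rw [sub_add_cancel] at a3
      rw [pow_succ]
      exact a3.trans (mul_le_mul_left (ih _ a1 x) _)
  refine ⟨2 * ENNReal.ofReal d, ENNReal.mul_ne_top ENNReal.ofNat_ne_top ENNReal.ofReal_ne_top,
    fun x => ?_⟩
  have m3 : Measurable fun p : ℂ × ℝ => KK ν O p.2 x p.1 :=
    measurable_KK ν hO measurable_snd measurable_const measurable_fst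
  simp_rw [h6 x]
  rw [lintegral_lintegral_swap m3.aemeasurable]
  calc ∫⁻ t in Ioi (0 : ℝ), ∫⁻ y, KK ν O t x y
      ≤ ∫⁻ t in ⋃ n : ℕ, Ioc (n * d) ((n + 1) * d), ∫⁻ y, KK ν O t x y :=
        lintegral_mono_set (FinA.cover hd)
    _ ≤ ∑' n : ℕ, ∫⁻ t in Ioc (n * d) ((n + 1) * d), ∫⁻ y, KK ν O t x y :=
        lintegral_iUnion_le _ _
    _ ≤ ∑' n : ℕ, 2⁻¹ ^ n * ENNReal.ofReal d := by
        refine ENNReal.tsum_le_tsum fun n => ?_
        calc ∫⁻ t in Ioc (n * d) ((n + 1) * d), ∫⁻ y, KK ν O t x y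
            ≤ ∫⁻ _ in Ioc ((n : ℝ) * d) ((n + 1) * d), (2⁻¹ : ℝ≥0∞) ^ n :=
              setLIntegral_mono' measurableSet_Ioc fun t ht => hind n t ht.1 x
          _ = 2⁻¹ ^ n * ENNReal.ofReal d := by
              rw [setLIntegral_const, Real.volume_Ioc]
              congr 2
              ring
    _ = 2 * ENNReal.ofReal d := by
        rw [ENNReal.tsum_mul_right, ENNReal.tsum_geometric, ENNReal.one_sub_inv_two, inv_inv]

end Pool.Agent.P.MP_d66c6d_pr
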