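import Pool.Agent.P.MP_d66c6d_pr.C.Iface
import Pool.Agent.P.MP_d66c6d_pr.B.Iface

/-! Step GEN of the carpet project. -/

namespace Pool.Agent.P.MP_d66c6d_pr

open MeasureTheory ProbabilityTheory Set Metric Filter Topology
open scoped ENNReal ComplexConjugate

namespace GenA

/-- Uniform Taylor expansion of order two near a compact set. -/
theorem taylor (W K : Set ℂ) (A : ℂ → ℂ) (r₀ : ℝ) (hW : IsOpen W) (hK : IsCompact K)
    (hA : DifferentiableOn ℂ A W) (hKW : cthickening r₀ K ⊆ W) :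
    ∃ C : ℝ, 0 ≤ C ∧ ∀ y ∈ K, ‖A y‖ ≤ C ∧ ‖deriv A y‖ ≤ C ∧ ‖deriv (deriv A) y / 2‖ ≤ C ∧
      ∀ z : ℂ, ‖z‖ < r₀ → ‖A (y + z)‖ ≤ C ∧
        ‖A (y + z) - (A y + deriv A y * z + deriv (deriv A) y / 2 * z ^ 2)‖ ≤ C * ‖z‖ ^ 3 := by
  have hK' : IsCompact (cthickening r₀ K) := hK.cthickening
  have h1 : DifferentiableOn ℂ (deriv A) W := hA.deriv hW
  have h2 : DifferentiableOn ℂ (deriv (deriv A)) W := h1.deriv hW
  have h3 : DifferentiableOn ℂ (deriv (deriv (deriv A))) W := h2.deriv hW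
  obtain ⟨C0, hC0⟩ := hK'.exists_bound_of_continuousOn (hA.continuousOn.mono hKW)
  obtain ⟨C1, hC1⟩ := hK'.exists_bound_of_continuousOn (h1.continuousOn.mono hKW)
  obtain ⟨C2, hC2⟩ := hK'.exists_bound_of_continuousOn (h2.continuousOn.mono hKW)
  obtain ⟨C3, hC3⟩ := hK'.exists_bound_of_continuousOn (h3.continuousOn.mono hKW)
  set C : ℝ := |C0| + |C1| + |C2| + |C3| with hC
  have a0 := abs_nonneg C0
  have a1 := abs_nonneg C1
  have a2 := abs_nonneg C2
  have a3 := abs_nonneg C3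
  have l0 := le_abs_self C0
  have l1 := le_abs_self C1
  have l2 := le_abs_self C2
  have l3 := le_abs_self C3
  have hC0' : 0 ≤ C := by rw [hC]; positivity
  refine ⟨C, hC0', fun y hy => ?_⟩
  have hyK : y ∈ cthickening r₀ K := self_subset_cthickening K hy
  refine ⟨by have := hC0 y hyK; linarith, by have := hC1 y hyK; linarith, ?_, fun z hz => ?_⟩
  · have := hC2 y hyK
    have h0 := norm_nonneg (deriv (deriv A) y)
    rw [norm_div, Complex.norm_two]
    linarith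
  set ρ : ℝ := ‖z‖ with hρ
  have hρ0 : 0 ≤ ρ := norm_nonneg z
  have hs : closedBall y ρ ⊆ cthickening r₀ K :=
    (closedBall_subset_closedBall hz.le).trans (closedBall_subset_cthickening hy r₀)
  have hyz : y + z ∈ closedBall y ρ := by simp [hρ]
  have hy0 : y ∈ closedBall y ρ := mem_closedBall_self hρ0
  have hd : ∀ {f : ℂ → ℂ}, DifferentiableOn ℂ f W → ∀ w ∈ closedBall y ρ,
      HasDerivAt f (deriv f w) w := fun hf w hw =>
    (hf.differentiableAt (hW.mem_nhds (hKW (hs hw)))).hasDerivAt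
  have hn : ∀ w ∈ closedBall y ρ, ‖w - y‖ ≤ ρ := fun w hw => by
    simpa [dist_eq_norm] using hw
  have s1 : ∀ w ∈ closedBall y ρ, ‖deriv (deriv A) w - deriv (deriv A) y‖ ≤ C * ρ := by
    intro w hw
    have := (convex_closedBall y ρ).norm_image_sub_le_of_norm_hasDerivWithin_le (C := C)
      (fun x hx => (hd h2 x hx).hasDerivWithinAt)
      (fun x hx => by have := hC3 x (hs hx); linarith) hy0 hw
    exact this.trans (mul_le_mul_of_nonneg_left (hn w hw) hC0')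
  have s2 : ∀ w ∈ closedBall y ρ,
      ‖deriv A w - deriv A y - deriv (deriv A) y * (w - y)‖ ≤ C * ρ * ρ := by
    intro w hw
    have := (convex_closedBall y ρ).norm_image_sub_le_of_norm_hasDerivWithin_le (C := C * ρ)
      (f := fun x => deriv A x - deriv (deriv A) y * (x - y))
      (f' := fun x => deriv (deriv A) x - deriv (deriv A) y)
      (fun x hx => by
        have := (hd h1 x hx).sub (((hasDerivAt_id x).sub_const y).const_mul (deriv (deriv A) y))
        exact (this.congr_deriv (by simp)).hasDerivWithinAt)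
      s1 hy0 hw
    have e : deriv A w - deriv A y - deriv (deriv A) y * (w - y) =
        deriv A w - deriv (deriv A) y * (w - y) - (deriv A y - deriv (deriv A) y * (y - y)) := by
      ring
    rw [e]
    exact this.trans (mul_le_mul_of_nonneg_left (hn w hw) (by positivity))
  refine ⟨by have := hC0 _ (hs hyz); linarith, ?_⟩
  have := (convex_closedBall y ρ).norm_image_sub_le_of_norm_hasDerivWithin_le (C := C * ρ * ρ)
    (f := fun x => A x - deriv A y * (x - y) - deriv (deriv A) y / 2 * ((x - y) * (x - y)))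
    (f' := fun x => deriv A x - deriv A y - deriv (deriv A) y * (x - y))
    (fun x hx => by
      have hx1 := (hasDerivAt_id x).sub_const y
      have := ((hd hA x hx).sub (hx1.const_mul (deriv A y))).sub
        ((hx1.mul hx1).const_mul (deriv (deriv A) y / 2))
      refine (this.congr_deriv ?_).hasDerivWithinAt
      simp only [id]
      ring)
    s2 hy0 hyz
  have e : A (y + z) - (A y + deriv A y * z + deriv (deriv A) y / 2 * z ^ 2) =
      A (y + z) - deriv A y * (y + z - y) - deriv (deriv A) y / 2 * ((y + z - y) * (y + z - y)) -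
        (A y - deriv A y * (y - y) - deriv (deriv A) y / 2 * ((y - y) * (y - y))) := by
    ring
  rw [e]
  refine this.trans (le_of_eq ?_)
  rw [add_sub_cancel_left, ← hρ]
  ring

/-- The main part of the product of two expansions. -/
noncomputable def mp (a0 a1 a2 b0 b1 b2 z : ℂ) : ℂ :=
  a0 * conj b0 + a0 * conj b1 * conj z + a0 * conj b2 * conj z ^ 2 + a1 * conj b0 * z +
    a2 * conj b0 * z ^ 2 + a1 * conj b1 * (z * conj z)

theorem prod_bound {a0 a1 a2 b0 b1 b2 z p q : ℂ} {C r : ℝ} (hC : 0 ≤ C) (hz : ‖z‖ ≤ r)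
    (h0 : ‖a0‖ ≤ C) (h1 : ‖a1‖ ≤ C) (h2 : ‖a2‖ ≤ C) (k1 : ‖b1‖ ≤ C) (k2 : ‖b2‖ ≤ C)
    (hq : ‖q‖ ≤ C) (hp' : ‖p - (a0 + a1 * z + a2 * z ^ 2)‖ ≤ C * ‖z‖ ^ 3)
    (hq' : ‖q - (b0 + b1 * z + b2 * z ^ 2)‖ ≤ C * ‖z‖ ^ 3) :
    ‖p * conj q - mp a0 a1 a2 b0 b1 b2 z‖ ≤ C * C * (4 + 2 * r + r ^ 2) * ‖z‖ ^ 3 := by
  have hz0 := norm_nonneg z
  have e : p * conj q - mp a0 a1 a2 b0 b1 b2 z =
      (p - (a0 + a1 * z + a2 * z ^ 2)) * conj q +
      (a0 + a1 * z + a2 * z ^ 2) * conj (q - (b0 + b1 * z + b2 * z ^ 2)) +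
      (a1 * z * conj (b2 * z ^ 2) + a2 * z ^ 2 * conj (b1 * z) +
        a2 * z ^ 2 * conj (b2 * z ^ 2)) := by
    simp only [mp, map_add, map_sub, map_mul, map_pow]
    ring
  have hP : ‖a0 + a1 * z + a2 * z ^ 2‖ ≤ C * (1 + r + r ^ 2) := by
    refine (norm_add₃_le).trans ?_
    rw [norm_mul, norm_mul, norm_pow]
    have : ‖a1‖ * ‖z‖ ≤ C * r := by gcongr
    have : ‖a2‖ * ‖z‖ ^ 2 ≤ C * r ^ 2 := by gcongr
    linarith
  have t1 : ‖(p - (a0 + a1 * z + a2 * z ^ 2)) * conj q‖ ≤ C * ‖z‖ ^ 3 * C := by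
    rw [norm_mul, Complex.norm_conj]
    gcongr
  have t2 : ‖(a0 + a1 * z + a2 * z ^ 2) * conj (q - (b0 + b1 * z + b2 * z ^ 2))‖ ≤
      C * (1 + r + r ^ 2) * (C * ‖z‖ ^ 3) := by
    rw [norm_mul, Complex.norm_conj]
    have : 0 ≤ r := hz0.trans hz
    gcongr
  have t3 : ‖a1 * z * conj (b2 * z ^ 2)‖ ≤ C * ‖z‖ * (C * ‖z‖ ^ 2) := by
    rw [norm_mul, Complex.norm_conj, norm_mul, norm_mul, norm_pow]
    gcongr
  have t4 : ‖a2 * z ^ 2 * conj (b1 * z)‖ ≤ C * ‖z‖ ^ 2 * (C * ‖z‖) := by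
    rw [norm_mul, Complex.norm_conj, norm_mul, norm_mul, norm_pow]
    gcongr
  have t5 : ‖a2 * z ^ 2 * conj (b2 * z ^ 2)‖ ≤ C * (‖z‖ * r) * (C * ‖z‖ ^ 2) := by
    rw [norm_mul, Complex.norm_conj, norm_mul, norm_mul, norm_pow]
    have : ‖z‖ ^ 2 ≤ ‖z‖ * r := by rw [sq]; gcongr
    have : 0 ≤ r := hz0.trans hz
    gcongr
  rw [e]
  refine norm_add₃_le.trans ?_
  have t6 := (norm_add₃_le (a := a1 * z * conj (b2 * z ^ 2)) (b := a2 * z ^ 2 * conj (b1 * z))
    (c := a2 * z ^ 2 * conj (b2 * z ^ 2)))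
  nlinarith

theorem avg_mp (a0 a1 a2 b0 b1 b2 z : ℂ) :
    mp a0 a1 a2 b0 b1 b2 (1 * z) + mp a0 a1 a2 b0 b1 b2 (Complex.I * z) +
      mp a0 a1 a2 b0 b1 b2 (-1 * z) + mp a0 a1 a2 b0 b1 b2 (-Complex.I * z) =
      4 * (a0 * conj b0 + a1 * conj b1 * ((‖z‖ ^ 2 : ℝ) : ℂ)) := by
  have h : ((‖z‖ ^ 2 : ℝ) : ℂ) = z * conj z := by
    rw [Complex.mul_conj, Complex.normSq_eq_norm_sq]
  rw [h]
  simp only [mp, map_mul, map_neg, map_one, Complex.conj_I]
  linear_combination (2 * a0 * conj b2 * conj z ^ 2 + 2 * a2 * conj b0 * z ^ 2 -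
    2 * a1 * conj b1 * (z * conj z)) * Complex.I_sq

theorem rot {μ : Measure ℂ} {u : ℂ} (hu : ‖u‖ = 1) (hμ : μ.map (fun z => u * z) = μ) (r : ℝ)
    (F : ℂ → ℂ) : ∫ z in ball 0 r, F (u * z) ∂μ = ∫ z in ball 0 r, F z ∂μ := by
  have hu0 : u ≠ 0 := by
    intro h
    simp [h] at hu
  have hp : MeasurePreserving (fun z => u * z) μ μ := ⟨by fun_prop, hμ⟩
  have he : MeasurableEmbedding (fun z : ℂ => u * z) :=
    (Homeomorph.mulLeft₀ u hu0).measurableEmbedding
  have := hp.setIntegral_preimage_emb he F (ball 0 r)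
  have hs : (fun z : ℂ => u * z) ⁻¹' ball 0 r = ball 0 r := by
    ext z
    simp [hu]
  rwa [hs] at this

theorem int_pow (μ : Measure ℂ) [IsGaussian μ] (k : ℕ) (hk : k ≠ 0) :
    Integrable (fun z : ℂ => ‖z‖ ^ k) μ :=
  (IsGaussian.memLp_id μ k (by simp)).integrable_norm_pow hk

theorem mom_two (hGM : S_GM) {t : ℝ} (ht : 0 < t) : ∫ z, ‖z‖ ^ 2 ∂gm t = 2 * t := by
  obtain ⟨hg, -, -, -, hrr, hii, -⟩ := hGM t ht
  have i2 := int_pow (gm t) 2 two_ne_zero
  have hs : ∀ z : ℂ, ‖z‖ ^ 2 = z.re * z.re + z.im * z.im := fun z => by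
    rw [← Complex.normSq_eq_norm_sq, Complex.normSq_apply]
  have ir : Integrable (fun z : ℂ => z.re * z.re) (gm t) := by
    refine i2.mono' (by fun_prop) (Eventually.of_forall fun z => ?_)
    rw [Real.norm_of_nonneg (mul_self_nonneg _), hs]
    nlinarith [mul_self_nonneg z.im]
  have ii : Integrable (fun z : ℂ => z.im * z.im) (gm t) := by
    refine i2.mono' (by fun_prop) (Eventually.of_forall fun z => ?_)
    rw [Real.norm_of_nonneg (mul_self_nonneg _), hs]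
    nlinarith [mul_self_nonneg z.re]
  simp only [hs]
  rw [integral_add ir ii, hrr, hii]
  ring

theorem mom_three (hGM : S_GM) {t : ℝ} (ht : 0 < t) :
    ∫ z, ‖z‖ ^ 3 ∂gm t = √t ^ 3 * ∫ z, ‖z‖ ^ 3 ∂gm 1 := by
  obtain ⟨-, -, -, -, -, -, -, hsc, -⟩ := hGM t ht
  rw [← hsc, integral_map (by fun_prop) (by fun_prop), ← integral_const_mul]
  congr 1
  ext z
  rw [norm_mul, mul_pow, Complex.norm_real, Real.norm_of_nonneg (Real.sqrt_nonneg t)]

/-- The estimate for one function with a cubic remainder on the ball. -/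
theorem main (hGM : S_GM) {t r D : ℝ} (ht : 0 < t) (hr : 0 < r) (hD : 0 ≤ D) (F : ℂ → ℂ)
    (hF : ContinuousOn F (closedBall 0 r)) (a0 a1 a2 b0 b1 b2 : ℂ)
    (hb : ∀ z : ℂ, ‖z‖ < r → ‖F z - mp a0 a1 a2 b0 b1 b2 z‖ ≤ D * ‖z‖ ^ 3) :
    ‖∫ z in ball 0 r, F z ∂gm t - a0 * conj b0 - t * (2 * a1 * conj b1)‖ ≤
      (D + ‖a0 * conj b0‖ / r ^ 3 + ‖a1 * conj b1‖ / r) * ∫ z, ‖z‖ ^ 3 ∂gm t := by
  have hrot := (hGM t ht).2.2.2.2.2.2.2.2.1
  have := (hGM t ht).1
  set c0 := a0 * conj b0 with hc0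
  set c1 := a1 * conj b1 with hc1
  have iF : ∀ u : ℂ, ‖u‖ = 1 → IntegrableOn (fun z => F (u * z)) (ball 0 r) (gm t) := by
    intro u hu
    refine IntegrableOn.mono_set ?_ ball_subset_closedBall
    refine ContinuousOn.integrableOn_compact (isCompact_closedBall 0 r) ?_
    refine hF.comp (by fun_prop) fun z hz => ?_
    simpa [hu] using hz
  have n1 : ‖(1 : ℂ)‖ = 1 := norm_one
  have n2 : ‖Complex.I‖ = 1 := Complex.norm_I
  have n3 : ‖(-1 : ℂ)‖ = 1 := by simp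
  have n4 : ‖-Complex.I‖ = 1 := by simp
  set G : ℂ → ℂ := fun z =>
    (F (1 * z) + F (Complex.I * z) + F (-1 * z) + F (-Complex.I * z)) / 4 with hG
  have iG : IntegrableOn G (ball 0 r) (gm t) :=
    ((((iF _ n1).add (iF _ n2)).add (iF _ n3)).add (iF _ n4)).div_const 4
  have eG : ∫ z in ball 0 r, G z ∂gm t = ∫ z in ball 0 r, F z ∂gm t := by
    have j2 : IntegrableOn (fun z => F (1 * z) + F (Complex.I * z)) (ball 0 r) (gm t) :=
      (iF _ n1).add (iF _ n2)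
    have j3 : IntegrableOn (fun z => F (1 * z) + F (Complex.I * z) + F (-1 * z)) (ball 0 r)
        (gm t) := j2.add (iF _ n3)
    rw [hG, integral_div, integral_add j3 (iF _ n4),
      integral_add j2 (iF _ n3), integral_add (iF _ n1) (iF _ n2),
      rot n1 (hrot _ n1), rot n2 (hrot _ n2), rot n3 (hrot _ n3), rot n4 (hrot _ n4)]
    ring
  have i2 : Integrable (fun z : ℂ => c1 * ((‖z‖ ^ 2 : ℝ) : ℂ)) (gm t) :=
    (int_pow (gm t) 2 two_ne_zero).ofReal.const_mul c1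
  have eM : ∫ z, (c0 + c1 * ((‖z‖ ^ 2 : ℝ) : ℂ)) ∂gm t = c0 + t * (2 * a1 * conj b1) := by
    rw [integral_add (integrable_const _) i2, integral_const_mul c1, integral_complex_ofReal,
      mom_two hGM ht]
    simp only [integral_const, probReal_univ, one_smul, hc1]
    push_cast
    ring
  have e : ∫ z in ball 0 r, F z ∂gm t - c0 - t * (2 * a1 * conj b1) =
      ∫ z, ((ball 0 r).indicator G z - (c0 + c1 * ((‖z‖ ^ 2 : ℝ) : ℂ))) ∂gm t := by
    have j : Integrable (fun z : ℂ => c0 + c1 * ((‖z‖ ^ 2 : ℝ) : ℂ)) (gm t) :=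
      (integrable_const _).add i2
    rw [integral_sub ((integrable_indicator_iff measurableSet_ball).2 iG) j,
      integral_indicator measurableSet_ball, eG, eM]
    ring
  rw [e, ← integral_const_mul]
  refine norm_integral_le_of_norm_le ((int_pow (gm t) 3 three_ne_zero).const_mul _)
    (Eventually.of_forall fun z => ?_)
  have hz0 := norm_nonneg z
  have p0 : 0 ≤ ‖c0‖ / r ^ 3 := by positivity
  have p1 : 0 ≤ ‖c1‖ / r := by positivity
  have p3 : 0 ≤ ‖z‖ ^ 3 := by positivity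
  by_cases hz : z ∈ ball (0 : ℂ) r
  · rw [indicator_of_mem hz]
    have hz' : ‖z‖ < r := by simpa using hz
    have hu : ∀ u : ℂ, ‖u‖ = 1 →
        ‖F (u * z) - mp a0 a1 a2 b0 b1 b2 (u * z)‖ ≤ D * ‖z‖ ^ 3 := by
      intro u hu
      have := hb (u * z) (by simpa [hu] using hz')
      simpa [hu] using this
    have e2 : G z - (c0 + c1 * ((‖z‖ ^ 2 : ℝ) : ℂ)) =
        ((F (1 * z) - mp a0 a1 a2 b0 b1 b2 (1 * z)) +
        (F (Complex.I * z) - mp a0 a1 a2 b0 b1 b2 (Complex.I * z)) +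
        (F (-1 * z) - mp a0 a1 a2 b0 b1 b2 (-1 * z)) +
        (F (-Complex.I * z) - mp a0 a1 a2 b0 b1 b2 (-Complex.I * z))) / 4 := by
      have := avg_mp a0 a1 a2 b0 b1 b2 z
      simp only [hG]
      linear_combination (1 / 4 : ℂ) * this
    rw [e2, norm_div]
    have := (norm_add₄_le (a := F (1 * z) - mp a0 a1 a2 b0 b1 b2 (1 * z))
      (b := F (Complex.I * z) - mp a0 a1 a2 b0 b1 b2 (Complex.I * z))
      (c := F (-1 * z) - mp a0 a1 a2 b0 b1 b2 (-1 * z))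
      (d := F (-Complex.I * z) - mp a0 a1 a2 b0 b1 b2 (-Complex.I * z)))
    have q1 := hu _ n1
    have q2 := hu _ n2
    have q3 := hu _ n3
    have q4 := hu _ n4
    have h4 : ‖(4 : ℂ)‖ = 4 := by simp
    rw [h4]
    nlinarith
  · rw [indicator_of_notMem hz, zero_sub, norm_neg]
    have hz' : r ≤ ‖z‖ := by simpa using hz
    refine (norm_add_le _ _).trans ?_
    rw [norm_mul c1, Complex.norm_real, Real.norm_of_nonneg (by positivity)]
    have k0 : ‖c0‖ ≤ ‖c0‖ / r ^ 3 * ‖z‖ ^ 3 := by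
      rw [div_mul_eq_mul_div, le_div_iff₀ (by positivity)]
      gcongr
    have k1 : ‖c1‖ * ‖z‖ ^ 2 ≤ ‖c1‖ / r * ‖z‖ ^ 3 := by
      rw [div_mul_eq_mul_div, le_div_iff₀ hr, mul_assoc, pow_succ ‖z‖ 2]
      gcongr
    nlinarith

end GenA

theorem p_GEN (hGM : S_GM) :
    S_GEN := by
  intro W K A B r₀ hW hK hA hB hr hKW ε hε
  obtain ⟨C1, hC1, h1⟩ := GenA.taylor W K A r₀ hW hK hA hKW
  obtain ⟨C2, hC2, h2⟩ := GenA.taylor W K B r₀ hW hK hB hKW
  set C := C1 + C2 with hC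
  have hC0 : 0 ≤ C := by positivity
  set m : ℝ := ∫ z, ‖z‖ ^ 3 ∂gm 1 with hm
  have hm0 : 0 ≤ m := integral_nonneg fun z => by positivity
  set D : ℝ := C * C * (4 + 2 * r₀ + r₀ ^ 2) with hD
  have hD0 : 0 ≤ D := by positivity
  set E : ℝ := (D + C * C / r₀ ^ 3 + C * C / r₀) * m with hE
  have hE0 : 0 ≤ E := by positivity
  refine ⟨(ε / (E + 1)) ^ 2, by positivity, fun δ hδ y hy => ?_⟩
  obtain ⟨a0, a1, a2, ha⟩ := h1 y hy
  obtain ⟨b0, b1, b2, hb⟩ := h2 y hy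
  have hs : ∀ z ∈ closedBall (0 : ℂ) r₀, y + z ∈ W := fun z hz =>
    hKW (closedBall_subset_cthickening hy r₀ (by simpa using hz))
  have hF : ContinuousOn (fun z => A (y + z) * conj (B (y + z))) (closedBall 0 r₀) :=
    (hA.continuousOn.comp (by fun_prop) hs).mul
      (Complex.continuous_conj.comp_continuousOn (hB.continuousOn.comp (by fun_prop) hs))
  have key := GenA.main hGM hδ.1 hr hD0 _ hF (A y) (deriv A y) (deriv (deriv A) y / 2)
    (B y) (deriv B y) (deriv (deriv B) y / 2) fun z hz => by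
      have p3 : 0 ≤ ‖z‖ ^ 3 := by positivity
      refine GenA.prod_bound hC0 hz.le (by linarith) (by linarith) (by linarith) (by linarith)
        (by linarith) (by have := (hb z hz).1; linarith) ?_ ?_
      · have := (ha z hz).2
        nlinarith
      · have := (hb z hz).2
        nlinarith
  refine key.trans ?_
  rw [GenA.mom_three hGM hδ.1, ← hm]
  have c0 : ‖A y * conj (B y)‖ ≤ C * C := by
    rw [norm_mul, Complex.norm_conj]
    gcongr <;> linarith
  have c1 : ‖deriv A y * conj (deriv B y)‖ ≤ C * C := by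
    rw [norm_mul, Complex.norm_conj]
    gcongr <;> linarith
  have hsq : √δ ≤ ε / (E + 1) := Real.sqrt_le_iff.2 ⟨by positivity, hδ.2.le⟩
  have hs0 := Real.sqrt_nonneg δ
  have hs3 : √δ ^ 3 = √δ * δ := by
    rw [pow_succ', Real.sq_sqrt hδ.1.le]
  calc (D + ‖A y * conj (B y)‖ / r₀ ^ 3 + ‖deriv A y * conj (deriv B y)‖ / r₀) * (√δ ^ 3 * m)
      ≤ (D + C * C / r₀ ^ 3 + C * C / r₀) * (√δ ^ 3 * m) := by gcongr
    _ = E * √δ * δ := by rw [hs3, hE]; ring
    _ ≤ ε * δ := by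
      refine mul_le_mul_of_nonneg_right ?_ hδ.1.le
      rw [le_div_iff₀ (by positivity)] at hsq
      nlinarith

end Pool.Agent.P.MP_d66c6d_pr
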