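import Pool.Agent.P.MP_d66c6d_pr.C.Defs

/-!
Statements of the chapter on conformal invariance of the loop measure.
-/

namespace Pool.Agent.P.MP_d66c6d_pr

open MeasureTheory ProbabilityTheory Set Metric Filter Topology
open scoped ENNReal ComplexConjugate

-- deps: CUT
/-- Occupation integrals are additive, weights are multiplicative. -/
def S_OCC : Prop := ∀ t : ℝ, 0 ≤ t → ∀ s ∈ Ioo (0 : ℝ) 1, ∀ γ : Br,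
  (∀ V : ℂ → ℝ≥0∞, Measurable V →
    occ V (t, γ) = occ V (s * t, sub 0 s γ) + occ V ((1 - s) * t, sub s 1 γ) ∧
    (γ 1 = γ 0 → occ V (t, rot s γ) = occ V (t, γ))) ∧
  ∀ (O : Set ℂ) (q : ℂ → ℝ), Measurable q →
    wt O q (t, γ) = wt O q (s * t, sub 0 s γ) * wt O q ((1 - s) * t, sub s 1 γ) ∧
    (γ 1 = γ 0 → wt O q (t, rot s γ) = wt O q (t, γ))

-- deps: CUT OCC
/-- The two pathwise Duhamel identities. -/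
def S_DUP : Prop := ∀ (O : Set ℂ) (q : ℂ → ℝ), ContinuousOn q O → Measurable q → (∀ z, 0 ≤ q z) →
  ∀ t : ℝ, 0 ≤ t → ∀ γ : Br,
  wt O 0 (t, γ) = wt O q (t, γ) + ENNReal.ofReal t * ∫⁻ s in Ioo (0 : ℝ) 1,
    wt O 0 (s * t, sub 0 s γ) * (ENNReal.ofReal (q (sub 0 s γ 1)) *
      wt O q ((1 - s) * t, sub s 1 γ)) ∧
  wt O 0 (t, γ) = wt O q (t, γ) + ENNReal.ofReal t * ∫⁻ s in Ioo (0 : ℝ) 1,
    wt O q (s * t, sub 0 s γ) * (ENNReal.ofReal (q (sub 0 s γ 1)) *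
      wt O 0 ((1 - s) * t, sub s 1 γ))

-- deps: DUP MARK REV
/-- The two resolvent identities. -/
def S_DUH : Prop := ∀ ν : Measure Br, IsBridge ν → ∀ (O : Set ℂ) (q : ℂ → ℝ), IsOpen O →
  ContinuousOn q O → Measurable q → (∀ z, 0 ≤ q z) → ∀ x y : ℂ,
  GG ν O 0 x y = GG ν O q x y + ∫⁻ z, GG ν O 0 x z * (ENNReal.ofReal (q z) * GG ν O q z y) ∧
  GG ν O 0 x y = GG ν O q x y + ∫⁻ z, GG ν O q x z * (ENNReal.ofReal (q z) * GG ν O 0 z y)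

-- deps: SPLIT CUT REV BM GM
/-- The killed heat kernel. -/
def S_KK : Prop := ∀ ν : Measure Br, IsBridge ν → ∀ O : Set ℂ, IsOpen O →
  (∀ a b : ℝ, 0 < a → 0 < b → ∀ x y,
    KK ν O (a + b) x y = ∫⁻ z, KK ν O a x z * KK ν O b z y) ∧
  (∀ t x y, KK ν O t x y ≤ hk t (y - x)) ∧
  (∀ t x y, x ∉ O ∨ y ∉ O → KK ν O t x y = 0) ∧
  (∀ q x y, GG ν O q x y ≤ GG ν O 0 x y) ∧
  (∀ q x y, x ∉ O ∨ y ∉ O → GG ν O q x y = 0) ∧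
  (∀ x y, GG ν O 0 x y = ∫⁻ t in Ioi (0 : ℝ), KK ν O t x y) ∧
  (∀ t : ℝ, 0 < t → ∀ x, ∫⁻ y, KK ν O t x y = bmM ν t x {γ | range γ ⊆ O} ∧
    ∫⁻ y, KK ν O t x y ≤ 1) ∧
  ∀ δ : ℝ, 0 < δ → ∀ x y, GG ν O 0 x y =
    (∫⁻ t in Ioc (0 : ℝ) δ, KK ν O t x y) + ∫⁻ z, GG ν O 0 x z * KK ν O δ z y

-- deps: KK GM
/-- The Green function of a bounded domain has bounded mass. -/
def S_FIN : Prop := ∀ ν : Measure Br, IsBridge ν → ∀ O : Set ℂ, IsOpen O →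
  Bornology.IsBounded O → ∃ C : ℝ≥0∞, C ≠ ∞ ∧ ∀ x, ∫⁻ y, GG ν O 0 x y ≤ C

-- deps: KK BM GM REV
/-- One-step estimates for the Dynkin formula. -/
def S_DYA : Prop := ∀ ν : Measure Br, IsBridge ν → ∀ (O : Set ℂ) (u h : ℂ → ℂ) (M r₀ : ℝ),
  DynHyp O u h M r₀ →
  (∀ ε > (0 : ℝ), ∃ δ₀ > (0 : ℝ), ∀ δ ∈ Ioo 0 δ₀, ∀ y ∈ O,
    ‖∫ w, u w ∂volume.withDensity (KK ν O δ y) - u y - δ * h y‖ ≤
      ε * δ + ε * (1 - (∫⁻ w, KK ν O δ y w).toReal)) ∧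
  ∀ x ∈ O, Tendsto (fun t => ∫ w, u w ∂volume.withDensity (KK ν O t x)) (𝓝[>] 0) (𝓝 (u x))

-- deps: KK FIN DYA
/-- The Dynkin formula. -/
def S_DYN : Prop := ∀ ν : Measure Br, IsBridge ν → ∀ (O : Set ℂ) (u h : ℂ → ℂ) (M r₀ : ℝ),
  DynHyp O u h M r₀ → ∀ x ∈ O, ∫ y, h y ∂volume.withDensity (GG ν O 0 x) = -u x

-- deps: GM
/-- The generator on products of a holomorphic and an antiholomorphic function. -/
def S_GEN : Prop := ∀ (W K : Set ℂ) (A B : ℂ → ℂ) (r₀ : ℝ), IsOpen W → IsCompact K →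
  DifferentiableOn ℂ A W → DifferentiableOn ℂ B W → 0 < r₀ → cthickening r₀ K ⊆ W →
  ∀ ε > (0 : ℝ), ∃ δ₀ > (0 : ℝ), ∀ δ ∈ Ioo 0 δ₀, ∀ y ∈ K,
    ‖∫ z in ball 0 r₀, A (y + z) * conj (B (y + z)) ∂gm δ - A y * conj (B y) -
      δ * (2 * deriv A y * conj (deriv B y))‖ ≤ ε * δ

-- deps: DYN GEN GM
/-- Moments of the image of the Green measure. -/
def S_MOM : Prop := ∀ ν : Measure Br, IsBridge ν → ∀ (O W : Set ℂ) (f : ℂ → ℂ) (ρ : ℝ),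
  IsOpen O → Bornology.IsBounded O → IsOpen W → closure O ⊆ W → DifferentiableOn ℂ f W →
  Measurable f → (∀ b ∈ frontier O, ‖f b‖ = ρ) → ∀ x ∈ O, ∀ a b : ℕ, b ≤ a →
  ∫ y, f y ^ a * conj (f y) ^ b * (jac f y : ℂ) ∂volume.withDensity (GG ν O 0 x) =
    ((ρ : ℂ) ^ (2 * (b + 1)) * f x ^ (a - b) - f x ^ (a + 1) * conj (f x) ^ (b + 1)) /
      (2 * (a + 1) * (b + 1))

-- deps:
/-- Finite measures on a disc are determined by their mixed moments. -/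
def S_MU : Prop := ∀ (m₁ m₂ : Measure ℂ) (ρ : ℝ), IsFiniteMeasure m₁ → IsFiniteMeasure m₂ →
  m₁ (closedBall 0 ρ)ᶜ = 0 → m₂ (closedBall 0 ρ)ᶜ = 0 →
  (∀ a b : ℕ, b ≤ a → ∫ w, w ^ a * conj w ^ b ∂m₁ = ∫ w, w ^ a * conj w ^ b ∂m₂) → m₁ = m₂

-- deps:
-- imports: Pool.Agent.P.MP_56bcbf_an.Koebe
/-- Preimages of smaller discs under a conformal chart. -/
def S_CONF : Prop := ∀ (D : Set ℂ) (f g : ℂ → ℂ), Conf D f g →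
  ContinuousOn (jac f) D ∧ (∀ z ∈ D, 0 < jac f z) ∧
  (∀ K : Set ℂ, IsCompact K → K ⊆ D → ∃ ρ ∈ Ioo (0 : ℝ) 1, K ⊆ dm D f ρ) ∧
  ∀ ρ ∈ Ioo (0 : ℝ) 1, IsOpen (dm D f ρ) ∧ IsCompact (closure (dm D f ρ)) ∧
    closure (dm D f ρ) ⊆ D ∧ (∀ b ∈ frontier (dm D f ρ), ‖f b‖ = ρ) ∧
    MapsTo g (ball 0 ρ) (dm D f ρ) ∧ ∃ M : ℝ, ∀ z ∈ dm D f ρ, jac f z ≤ M

-- deps: MOM MU CONF KK FIN
/-- Conformal invariance of the Green function. -/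
def S_CGZ : Prop := ∀ ν : Measure Br, IsBridge ν → ∀ (D : Set ℂ) (f g : ℂ → ℂ), Conf D f g →
  ∀ ρ ∈ Ioo (0 : ℝ) 1, ∀ x ∈ dm D f ρ, ∀ k : ℂ → ℝ≥0∞, Measurable k →
  ∫⁻ y, GG ν (dm D f ρ) 0 x y * (ENNReal.ofReal (jac f y) * k (f y)) =
    ∫⁻ w, GG ν (ball 0 ρ) 0 (f x) w * k w

-- deps: CGZ DUH CONF KK FIN
/-- Conformal invariance of the Green function with a potential. -/
def S_CGQ : Prop := ∀ ν : Measure Br, IsBridge ν → ∀ (D : Set ℂ) (f g : ℂ → ℂ), Conf D f g →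
  ∀ ρ ∈ Ioo (0 : ℝ) 1, ∀ (q : ℂ → ℝ) (M : ℝ), Continuous q → (∀ w, 0 ≤ q w ∧ q w ≤ M) →
  ∀ x ∈ dm D f ρ, ∀ k : ℂ → ℝ≥0∞, Measurable k →
  ∫⁻ y, GG ν (dm D f ρ) (fun z => q (f z) * jac f z) x y * (ENNReal.ofReal (jac f y) * k (f y)) =
    ∫⁻ w, GG ν (ball 0 ρ) q (f x) w * k w

-- deps: LOOP MARK OCC CUT REV
/-- The second moment of the occupation integral under the loop measure. -/
def S_MF : Prop := ∀ ν : Measure Br, IsBridge ν → ∀ (O : Set ℂ) (q : ℂ → ℝ) (V : ℂ → ℝ≥0∞),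
  IsOpen O → Measurable q → Measurable V →
  ∫⁻ l, wt O q (lp l) * occ V (lp l) ^ 2 ∂loopMeasure ν =
    ∫⁻ x, V x * ∫⁻ z, GG ν O q x z * (V z * GG ν O q z x)

-- deps: MF CGQ CONF KK
/-- Conformal invariance of the second moments. -/
def S_CM : Prop := ∀ ν : Measure Br, IsBridge ν → ∀ (D : Set ℂ) (f g : ℂ → ℂ), Conf D f g →
  ∀ ρ ∈ Ioo (0 : ℝ) 1, ∀ (q : ℂ → ℝ) (M : ℝ), Continuous q → (∀ w, 0 ≤ q w ∧ q w ≤ M) →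
  ∫⁻ l, wt (dm D f ρ) (fun z => q (f z) * jac f z) (lp l) *
      occ (fun z => ENNReal.ofReal (jac f z)) (lp l) ^ 2 ∂loopMeasure ν =
    ∫⁻ l, wt (ball 0 ρ) q (lp l) * occ 1 (lp l) ^ 2 ∂loopMeasure ν

-- deps: CM CONF REV
/-- From potentials to closed sets. -/
def S_CZ : Prop := ∀ ν : Measure Br, IsBridge ν → ∀ α : ℝ, 0 < α →
  ∫⁻ l in {l | trace l ⊆ ball 0 1},
    en (ENNReal.ofReal α * occ 1 (lp l)) * occ 1 (lp l) ^ 2 ∂loopMeasure ν ≠ ∞ ∧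
  ∀ (D : Set ℂ) (f g : ℂ → ℂ), Conf D f g → ∀ ρ ∈ Ioo (0 : ℝ) 1, ∀ U : Set ℂ, IsOpen U →
  ∫⁻ l in {l | trace l ⊆ dm D f ρ ∧ ¬ (trace l ∩ (D ∩ f ⁻¹' U)).Nonempty},
      en (ENNReal.ofReal α * occ (fun z => ENNReal.ofReal (jac f z)) (lp l)) *
        occ (fun z => ENNReal.ofReal (jac f z)) (lp l) ^ 2 ∂loopMeasure ν =
    ∫⁻ l in {l | trace l ⊆ ball 0 ρ ∧ ¬ (trace l ∩ U).Nonempty},
      en (ENNReal.ofReal α * occ 1 (lp l)) * occ 1 (lp l) ^ 2 ∂loopMeasure ν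

-- deps: CZ CONF
/-- From closed sets to all events on the codes. -/
def S_CP : Prop := ∀ ν : Measure Br, IsBridge ν → ∀ α : ℝ, 0 < α →
  ∀ (D : Set ℂ) (f g : ℂ → ℂ), Conf D f g → ∀ ρ ∈ Ioo (0 : ℝ) 1, ∀ U : ℕ → Set ℂ,
  (∀ i, IsOpen (U i)) → ∀ E : Set (ℕ → Prop), MeasurableSet E →
  ∫⁻ l in {l | trace l ⊆ dm D f ρ ∧ cod (fun i => D ∩ f ⁻¹' U i) l ∈ E},
      en (ENNReal.ofReal α * occ (fun z => ENNReal.ofReal (jac f z)) (lp l)) *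
        occ (fun z => ENNReal.ofReal (jac f z)) (lp l) ^ 2 ∂loopMeasure ν =
    ∫⁻ l in {l | trace l ⊆ ball 0 ρ ∧ cod U l ∈ E},
      en (ENNReal.ofReal α * occ 1 (lp l)) * occ 1 (lp l) ^ 2 ∂loopMeasure ν

-- deps: CP CONF REV
/-- Conformal invariance of the loop measure on traces. -/
def S_CI : Prop := ∀ ν : Measure Br, IsBridge ν → ∀ (D : Set ℂ) (f g : ℂ → ℂ), Conf D f g →
  ∀ U : ℕ → Set ℂ, (∀ i, IsOpen (U i)) → ∀ E : Set (ℕ → Prop), MeasurableSet E →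
  loopMeasure ν {l | trace l ⊆ D ∧ cod (fun i => D ∩ f ⁻¹' U i) l ∈ E} =
    loopMeasure ν {l | trace l ⊆ ball 0 1 ∧ cod U l ∈ E}

end Pool.Agent.P.MP_d66c6d_pr
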