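import Pool.Agent.P.MP_d66c6d_pr.C.Iface
import Pool.Agent.P.MP_d66c6d_pr.B.Iface

/-! Step KK of the carpet project. -/

namespace Pool.Agent.P.MP_d66c6d_pr

open MeasureTheory ProbabilityTheory Set Metric Filter Topology
open scoped ENNReal ComplexConjugate

theorem p_KK (hSPLIT : S_SPLIT) (hCUT : S_CUT) (hREV : S_REV) (hBM : S_BM) (hGM : S_GM) :
    S_KK := by
  intro ν hν O hO
  have := hν.prob
  have hm := (isOpen_rangeSub hO).measurableSet
  have hi : Measurable ({γ : Br | range γ ⊆ O}.indicator (1 : Br → ℝ≥0∞)) :=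
    measurable_one.indicator hm
  have hK : ∀ t x y, ∫⁻ γ, {γ : Br | range γ ⊆ O}.indicator 1 γ ∂brM ν t x y = KK ν O t x y :=
    fun _ _ _ => lintegral_indicator_one hm
  have h1 : ∀ a b : ℝ, 0 < a → 0 < b → ∀ x y,
      KK ν O (a + b) x y = ∫⁻ z, KK ν O a x z * KK ν O b z y := by
    intro a b ha hb x y
    have hab := add_pos ha hb
    have hs : a / (a + b) ∈ Ioo (0 : ℝ) 1 := ⟨div_pos ha hab, (div_lt_one hab).2 (by linarith)⟩
    have h := hSPLIT ν hν _ hab _ hs x y (fun p => {γ : Br | range γ ⊆ O}.indicator 1 p.1 *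
      {γ : Br | range γ ⊆ O}.indicator 1 p.2) ((hi.comp measurable_fst).mul (hi.comp measurable_snd))
    rw [show (1 - a / (a + b)) * (a + b) = b by field_simp; ring, div_mul_cancel₀ _ hab.ne'] at h
    simp only [lintegral_const_mul _ hi, lintegral_mul_const _ hi, hK] at h
    rw [← h, ← hK]
    refine lintegral_congr fun γ => ?_
    have e : range γ ⊆ O ↔ range (sub (a / (a + b)) 1 γ) ⊆ O ∧ range (sub 0 (a / (a + b)) γ) ⊆ O := by
      rw [hCUT.2.2.2.2.1 _ (Ioo_subset_Icc_self hs) γ, union_subset_iff, and_comm]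
    simp only [indicator, mem_ofPred_eq, Pi.one_apply, mul_ite, mul_one, mul_zero, ← ite_and]
    split_ifs with u v v
    exacts [rfl, absurd (e.1 u) v, absurd (e.2 v) u, rfl]
  have h3 : ∀ t x y, x ∉ O ∨ y ∉ O → KK ν O t x y = 0 := fun t x y h =>
    measure_eq_zero_iff_ae_notMem.2 (((hREV.2 ν hν).2.2.2.2.1 t x y).mono fun γ e hγ =>
      h.elim (fun h => h (hγ ⟨0, e.1⟩)) fun h => h (hγ ⟨1, e.2⟩))
  have h4 : ∀ q x y, GG ν O q x y ≤ GG ν O 0 x y := fun q x y => lintegral_mono fun p => by
    rw [wt_zero]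
    exact indicator_le_indicator (en_le_one _)
  have h6 : ∀ x y, GG ν O 0 x y = ∫⁻ t in Ioi (0 : ℝ), KK ν O t x y := fun x y => by
    rw [GG, lintegral_grM ν x y (measurable_wt hO measurable_zero)]
    simp only [wt_zero, ← hK]
    rfl
  refine ⟨h1, fun t x y => ?_, h3, h4, fun q x y h => ?_, h6, fun t ht x => ?_,
    fun δ hδ x y => ?_⟩
  · rw [KK, brM, Measure.smul_apply, smul_eq_mul]
    have := Measure.isProbabilityMeasure_map (μ := ν) (f := seg x y t) (by fun_prop)
    exact mul_le_of_le_one_right' prob_le_one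
  · refine le_zero_iff.1 ((h4 q x y).trans_eq ?_)
    simp only [h6, h3 _ x y h, lintegral_zero]
  · obtain ⟨a, b⟩ := (hBM ν hν).1 t ht x
    have := (b _ hi).symm
    simp only [hK, lintegral_indicator_one hm] at this
    exact ⟨this, this.trans_le prob_le_one⟩
  · rw [h6, ← Ioc_union_Ioi_eq_Ioi hδ.le, lintegral_union measurableSet_Ioi Ioc_disjoint_Ioi_same,
      ← (measurePreserving_add_right volume δ).setLIntegral_comp_preimage_emb
        (MeasurableEquiv.addRight δ).measurableEmbedding _ (Ioi δ), preimage_add_const_Ioi, sub_self,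
      setLIntegral_congr_fun measurableSet_Ioi fun t ht => h1 t δ ht hδ x y,
      lintegral_lintegral_swap ((measurable_KK ν hO measurable_fst measurable_const
        measurable_snd).mul (measurable_KK ν hO measurable_const measurable_snd
          measurable_const)).aemeasurable]
    simp only [h6, lintegral_mul_const _
      (measurable_KK ν hO measurable_id' measurable_const measurable_const)]

end Pool.Agent.P.MP_d66c6d_pr
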