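import Pool.Agent.P.MP_d66c6d_pr.C.Iface
import Pool.Agent.P.MP_d66c6d_pr.B.Iface

/-! Step MF of the carpet project. -/

namespace Pool.Agent.P.MP_d66c6d_pr

open MeasureTheory ProbabilityTheory Set Metric Filter Topology
open scoped ENNReal ComplexConjugate

theorem p_MF (hLOOP : S_LOOP) (hMARK : S_MARK) (hOCC : S_OCC) (hCUT : S_CUT) (hREV : S_REV) :
    S_MF := by
  intro ν hν O q V hO hq hV
  have := hν.prob
  obtain ⟨-, -, -, -, -, hG, -, hL⟩ := hREV.2 ν hν
  have mw := measurable_wt hO hq
  have mo := measurable_occ hV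
  have mV : ∀ s : unitInterval, Measurable fun p : TP => V (p.2 s) := fun s =>
    hV.comp (Measurable.evalBr measurable_snd measurable_const)
  have ms : ∀ γ : Br, Measurable fun s : ℝ => V (sub 0 s γ 1) := fun γ =>
    hV.comp (Measurable.evalBr (by fun_prop) measurable_const)
  have h1 := (hLOOP ν hν (fun p => V (p.2 0) * (wt O q p * occ V p))
    ((mV 0).mul (mw.mul mo))).2
  refine Eq.trans (lintegral_congr_ae ?_) (h1.trans (lintegral_congr fun x => ?_))
  · filter_upwards [hL] with l ⟨h2, h3, h4⟩
    have h5 : (lp l).2 1 = (lp l).2 0 := h4.trans h3.symm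
    rw [setLIntegral_congr_fun measurableSet_Ioo (g := fun s => V (sub 0 s (lp l).2 1) *
      (wt O q (lp l) * occ V (lp l))) fun s hs => ?_, lintegral_mul_const _ (ms _), ← mul_assoc]
    · change _ = occ V (lp l) * _
      ring
    · obtain ⟨h6, h7⟩ := hOCC (lp l).1 h2.le s hs (lp l).2
      simp only
      rw [(h6 V hV).2 h5, (h7 O q hq).2 h5, (hCUT.2.2.2.2.2.2.2.2 s hs _ h5).2.2.2.1]
  · have h2 := hMARK ν hν x x (fun p => wt O q p.1 * (V (p.1.2 1) * wt O q p.2))
      ((mw.comp measurable_fst).mul (((mV 1).comp measurable_fst).mul (mw.comp measurable_snd)))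
    rw [lintegral_congr_ae (g := fun p => V x * (wt O q p * occ V p))
      ((hG x x).mono fun p hp => by simp only [hp.2.1]), lintegral_const_mul _ (mw.fun_mul mo)]
    congr 1
    refine Eq.trans (lintegral_congr_ae ?_) (h2.trans (lintegral_congr fun z => ?_))
    · filter_upwards [hG x x] with p hp
      rw [setLIntegral_congr_fun measurableSet_Ioo (g := fun s => wt O q p * V (sub 0 s p.2 1))
        fun s hs => ?_, lintegral_const_mul _ (ms _), occ, mul_left_comm]
      simp only
      rw [mul_left_comm, ← ((hOCC p.1 hp.1.le s hs p.2).2 O q hq).1, mul_comm]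
    · rw [GG, ← lintegral_mul_const _ mw]
      refine lintegral_congr_ae ((hG x z).mono fun p hp => ?_)
      simp only
      rw [lintegral_const_mul _ (mw.const_mul _), lintegral_const_mul _ mw, hp.2.2, GG]

end Pool.Agent.P.MP_d66c6d_pr
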