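import Pool.Agent.P.MP_d66c6d_pr.C.Iface
import Pool.Agent.P.MP_d66c6d_pr.B.Iface

/-! Step MOM of the carpet project. -/

namespace Pool.Agent.P.MP_d66c6d_pr

open MeasureTheory ProbabilityTheory Set Metric Filter Topology
open scoped ENNReal ComplexConjugate

namespace MomA

theorem intg (hGM : S_GM) {W K : Set ℂ} {F : ℂ → ℂ} {r δ : ℝ} {y : ℂ} (hF : ContinuousOn F W)
    (hK : cthickening r K ⊆ W) (hy : y ∈ K) (hδ : 0 < δ) :
    IntegrableOn (fun z => F (y + z)) (ball 0 r) (gm δ) := by
  have := (hGM δ hδ).1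
  refine (ContinuousOn.integrableOn_compact (isCompact_closedBall 0 r) ?_).mono_set
    ball_subset_closedBall
  refine hF.comp (by fun_prop) fun z hz => hK (mem_cthickening_of_dist_le _ y _ _ hy ?_)
  simpa using hz

theorem dpow {f : ℂ → ℂ} {y : ℂ} (h : DifferentiableAt ℂ f y) (n : ℕ) :
    deriv (fun w => f w ^ (n + 1)) y = (n + 1) * f y ^ n * deriv f y := by
  simpa using (h.hasDerivAt.fun_pow (n + 1)).deriv

end MomA

open MomA in
theorem p_MOM (hDYN : S_DYN) (hGEN : S_GEN) (hGM : S_GM) :
    S_MOM := by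
  intro ν hν O W f ρ hO hb hW hc hf mf hρ x hx a b hab
  have hK : IsCompact (closure O) := hb.isCompact_closure
  obtain ⟨r, hr, hs⟩ := hK.exists_cthickening_subset_open hW hc
  have hK' : IsCompact (cthickening r (closure O)) := hK.cthickening
  have cf := hf.continuousOn
  have cd := (hf.deriv hW).continuousOn
  have cc : ContinuousOn (fun w => conj (f w)) W := Complex.continuous_conj.comp_continuousOn cf
  have mc : Measurable fun w => conj (f w) := Complex.continuous_conj.measurable.comp mf
  set u : ℂ → ℂ := fun w => f w ^ (a + 1) * conj (f w) ^ (b + 1) -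
    (ρ : ℂ) ^ (2 * (b + 1)) * f w ^ (a - b) with hu
  set h : ℂ → ℂ := fun w => (2 * (a + 1) * (b + 1)) * (f w ^ a * conj (f w) ^ b * (jac f w : ℂ))
    with hh
  have cu : ContinuousOn u W := by rw [hu]; fun_prop
  have ch : ContinuousOn h W := by
    have : ContinuousOn (fun w => (jac f w : ℂ)) W :=
      Complex.continuous_ofReal.comp_continuousOn (cd.norm.pow 2)
    rw [hh]; fun_prop
  obtain ⟨M, hM⟩ := hK'.exists_bound_of_continuousOn (cu.mono hs)
  obtain ⟨M', hM'⟩ := hK'.exists_bound_of_continuousOn (ch.mono hs)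
  have t1 : thickening r O ⊆ cthickening r (closure O) :=
    (thickening_subset_cthickening r O).trans (cthickening_subset_of_subset r subset_closure)
  have t2 : closure O ⊆ cthickening r (closure O) := self_subset_cthickening _
  have H : DynHyp O u h (max M M') r := by
    refine ⟨hO, hb, by rw [hu]; fun_prop, by rw [hh]; fun_prop, hr,
      fun w hw => (hM w (t1 hw)).trans (le_max_left _ _),
      fun w hw => (hM' w (t2 (subset_closure hw))).trans (le_max_right _ _),
      cu.mono (subset_closure.trans hc), fun ε hε => ?_, fun ε hε => ?_⟩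
    · obtain ⟨d, hd, h1⟩ := Metric.uniformContinuousOn_iff.1
        (hK'.uniformContinuousOn_of_continuous (cu.mono hs)) ε hε
      refine ⟨d, hd, fun w hw c hc' hwc => ?_⟩
      have h2 : u c = 0 := by
        have h3 : f c * conj (f c) = (ρ : ℂ) ^ 2 := by
          rw [Complex.mul_conj', hρ c hc']
        obtain ⟨k, rfl⟩ := Nat.exists_eq_add_of_le hab
        simp only [hu, Nat.add_sub_cancel_left, pow_mul, ← h3]
        ring
      simpa [h2] using (h1 w (t1 hw) c (t2 (frontier_subset_closure hc')) hwc).le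
    · obtain ⟨d, hd, h1⟩ := hGEN W _ (fun w => f w ^ (a + 1)) (fun w => f w ^ (b + 1)) r hW hK
        (by fun_prop) (by fun_prop) hr hs (ε / 2) (half_pos hε)
      obtain ⟨d', hd', h2⟩ := hGEN W _ (fun w => (ρ : ℂ) ^ (2 * (b + 1)) * f w ^ (a - b))
        (fun _ => 1) r hW hK (by fun_prop) (by fun_prop) hr hs (ε / 2) (half_pos hε)
      refine ⟨min d d', lt_min hd hd', fun δ hδ y hy => ?_⟩
      have hy' := subset_closure hy
      have h3 := h1 δ ⟨hδ.1, hδ.2.trans_le (min_le_left _ _)⟩ y hy'
      have h4 := h2 δ ⟨hδ.1, hδ.2.trans_le (min_le_right _ _)⟩ y hy'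
      have h5 := hf.differentiableAt (hW.mem_nhds (hc hy'))
      have h6 : (jac f y : ℂ) = deriv f y * conj (deriv f y) := by
        rw [Complex.mul_conj', jac, Complex.ofReal_pow]
      simp only [dpow h5, map_pow, map_one, mul_one, deriv_const, map_zero, mul_zero, sub_zero,
        map_mul, map_add, map_natCast] at h3 h4
      have h7 := integral_sub
        (intg hGM (F := fun w => f w ^ (a + 1) * conj (f w) ^ (b + 1)) (by fun_prop) hs hy' hδ.1)
        (intg hGM (F := fun w => (ρ : ℂ) ^ (2 * (b + 1)) * f w ^ (a - b)) (by fun_prop) hs hy' hδ.1)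
      simp only [hu, hh, h6, h7]
      refine le_of_eq_of_le (congrArg _ ?_) ((norm_sub_le_of_le h3 h4).trans_eq (by ring))
      ring
  have h1 := hDYN ν hν O u h _ r H x hx
  have h2 : (2 * (a + 1) * (b + 1) : ℂ) ≠ 0 := by
    exact_mod_cast (by positivity : 2 * (a + 1) * (b + 1) ≠ 0)
  rw [hh, integral_const_mul] at h1
  rw [eq_div_iff h2, mul_comm, h1, hu]
  ring

end Pool.Agent.P.MP_d66c6d_pr
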