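import Pool.Agent.P.MP_d66c6d_pr.C.Iface

/-! Step MU of the carpet project. -/

namespace Pool.Agent.P.MP_d66c6d_pr

open MeasureTheory ProbabilityTheory Set Metric Filter Topology
open scoped ENNReal ComplexConjugate

namespace MuA

open BoundedContinuousFunction

theorem all {m₁ m₂ : Measure ℂ}
    (h : ∀ a b : ℕ, b ≤ a → ∫ w, w ^ a * conj w ^ b ∂m₁ = ∫ w, w ^ a * conj w ^ b ∂m₂) (a b : ℕ) :
    ∫ w, w ^ a * conj w ^ b ∂m₁ = ∫ w, w ^ a * conj w ^ b ∂m₂ := by
  rcases le_total b a with hab | hab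
  · exact h a b hab
  · have key : ∀ m : Measure ℂ,
        ∫ w, w ^ a * conj w ^ b ∂m = conj (∫ w, w ^ b * conj w ^ a ∂m) := fun m => by
      rw [← integral_conj]
      refine integral_congr_ae (Eventually.of_forall fun w => ?_)
      simp [mul_comm]
    rw [key m₁, key m₂, h b a hab]

/-- The coordinate on the closed disc. -/
noncomputable def X (ρ : ℝ) : closedBall (0 : ℂ) ρ →ᵇ ℂ :=
  mkOfCompact ⟨Subtype.val, continuous_subtype_val⟩

theorem sub {ρ : ℝ} (P Q : Measure (closedBall (0 : ℂ) ρ)) [IsFiniteMeasure P] [IsFiniteMeasure Q]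
    (h : ∀ a b : ℕ, ∫ w, (w : ℂ) ^ a * conj (w : ℂ) ^ b ∂P =
      ∫ w, (w : ℂ) ^ a * conj (w : ℂ) ^ b ∂Q) : P = Q := by
  have : CompleteSpace (closedBall (0 : ℂ) ρ) := isClosed_closedBall.completeSpace_coe
  refine ext_of_forall_mem_subalgebra_integral_eq_of_pseudoEMetric_complete_countable
    (𝕜 := ℂ) (A := StarAlgebra.adjoin ℂ {X ρ}) ?_ ?_
  · intro x y hxy
    refine ⟨_, ⟨toContinuousMapStarₐ ℂ (X ρ), ?_, rfl⟩, fun h0 => hxy (Subtype.ext h0)⟩
    exact ⟨X ρ, StarAlgebra.subset_adjoin ℂ _ rfl, rfl⟩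
  · intro g hg
    have h1 : g ∈ Algebra.adjoin ℂ ({X ρ} ∪ star {X ρ} : Set (closedBall (0 : ℂ) ρ →ᵇ ℂ)) := by
      rw [← StarAlgebra.adjoin_toSubalgebra]
      exact hg
    have h2 : g ∈ Submodule.span ℂ
        (Submonoid.closure ({X ρ} ∪ star {X ρ} : Set (closedBall (0 : ℂ) ρ →ᵇ ℂ)) :
          Set (closedBall (0 : ℂ) ρ →ᵇ ℂ)) := by
      rw [← Algebra.adjoin_eq_span]
      exact h1
    clear h1 hg
    induction h2 using Submodule.span_induction with
    | mem f hf =>
      rw [Set.star_singleton, Set.singleton_union] at hf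
      obtain ⟨a, b, rfl⟩ := (Submonoid.mem_closure_pair _ _ _).1 hf
      exact h a b
    | zero => simp
    | add f f' _ _ h1 h2 =>
      simp only [BoundedContinuousFunction.coe_add, Pi.add_apply]
      rw [integral_add (f.integrable P) (f'.integrable P),
        integral_add (f.integrable Q) (f'.integrable Q), h1, h2]
    | smul c f _ h1 =>
      simp only [BoundedContinuousFunction.coe_smul, smul_eq_mul]
      rw [integral_const_mul, integral_const_mul, h1]

end MuA

theorem p_MU :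
    S_MU := by
  intro m₁ m₂ ρ h1 h2 z1 z2 h
  have hm : MeasurableSet (closedBall (0 : ℂ) ρ) := measurableSet_closedBall
  have r1 : m₁.restrict (closedBall 0 ρ) = m₁ := Measure.restrict_eq_self_of_ae_mem z1
  have r2 : m₂.restrict (closedBall 0 ρ) = m₂ := Measure.restrict_eq_self_of_ae_mem z2
  have key : (m₁.comap Subtype.val : Measure (closedBall (0 : ℂ) ρ)) = m₂.comap Subtype.val := by
    refine MuA.sub _ _ fun a b => ?_
    rw [integral_subtype_comap hm (fun w : ℂ => w ^ a * conj w ^ b),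
      integral_subtype_comap hm (fun w : ℂ => w ^ a * conj w ^ b), r1, r2]
    exact MuA.all h a b
  rw [← r1, ← r2, ← map_comap_subtype_coe hm, ← map_comap_subtype_coe hm, key]

end Pool.Agent.P.MP_d66c6d_pr
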