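import Pool.Agent.P.MP_d66c6d_pr.C.Iface
import Pool.Agent.P.MP_d66c6d_pr.B.Iface

/-! Step OCC of the carpet project. -/

namespace Pool.Agent.P.MP_d66c6d_pr

open MeasureTheory ProbabilityTheory Set Metric Filter Topology
open scoped ENNReal ComplexConjugate

namespace OccA

theorem scale {a b : ℝ} (h : a < b) (f : ℝ → ℝ≥0∞) :
    ∫⁻ u in Ioo a b, f u = ENNReal.ofReal (b - a) * ∫⁻ u in Ioo (0 : ℝ) 1, f (a + u * (b - a)) := by
  have h0 : 0 < b - a := sub_pos.2 h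
  have e : (fun u => a + u * (b - a)) '' Ioo (0 : ℝ) 1 = Ioo a b := by
    ext x
    constructor
    · rintro ⟨u, ⟨h1, h2⟩, rfl⟩
      constructor <;> nlinarith
    · rintro ⟨h1, h2⟩
      exact ⟨(x - a) / (b - a), ⟨div_pos (by linarith) h0, (div_lt_one h0).2 (by linarith)⟩,
        by field_simp; ring⟩
  rw [← e, lintegral_image_eq_lintegral_abs_deriv_mul measurableSet_Ioo (f' := fun _ => b - a)
    (fun x _ => by
      simpa using (((hasDerivAt_id x).mul_const (b - a)).const_add a).hasDerivWithinAt)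
    (fun x _ y _ e => mul_right_cancel₀ h0.ne' (add_left_cancel e)), abs_of_pos h0,
    lintegral_const_mul' _ _ ENNReal.ofReal_ne_top]

theorem occ_sub {a b : ℝ} (h : a < b) (t : ℝ) (γ : Br) (V : ℂ → ℝ≥0∞) :
    occ V ((b - a) * t, sub a b γ) =
      ENNReal.ofReal t * ∫⁻ u in Ioo a b, V (γ (projIcc 0 1 zero_le_one u)) := by
  rw [scale h, occ, ENNReal.ofReal_mul (sub_pos.2 h).le, mul_comm (ENNReal.ofReal (b - a)),
    mul_assoc]
  congr 2
  refine setLIntegral_congr_fun measurableSet_Ioo fun u hu => ?_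
  simp only [sub_zero_one_apply]
  rw [sub_apply, projIcc_of_mem _ (Ioo_subset_Icc_self hu)]

theorem add (t : ℝ) {s : ℝ} (hs : s ∈ Ioo (0 : ℝ) 1) (γ : Br) (V : ℂ → ℝ≥0∞) :
    occ V (t, γ) = occ V (s * t, sub 0 s γ) + occ V ((1 - s) * t, sub s 1 γ) := by
  have h1 := occ_sub hs.1 t γ V
  rw [sub_zero] at h1
  rw [h1, occ_sub hs.2, ← mul_add, setLIntegral_congr (Ioo_ae_eq_Ioc (a := 0) (b := s)),
    ← lintegral_union measurableSet_Ioo (disjoint_left.2 fun x h h' => h.2.not_gt h'.1),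
    Ioc_union_Ioo_eq_Ioo hs.1.le hs.2, occ]
  simp only [sub_zero_one_apply]

end OccA

open OccA in
theorem p_OCC (hCUT : S_CUT) :
    S_OCC := by
  obtain ⟨-, -, -, -, h1, -, -, -, h2⟩ := hCUT
  intro t _ s hs γ
  have r : ∀ V : ℂ → ℝ≥0∞, γ 1 = γ 0 → occ V (t, rot s γ) = occ V (t, γ) := fun V h => by
    obtain ⟨a, b, -⟩ := h2 s hs γ h
    rw [add t (s := 1 - s) ⟨sub_pos.2 hs.2, sub_lt_self _ hs.1⟩, a, b, sub_sub_cancel, add_comm,
      ← add t hs]
  have w1 : ∀ (O : Set ℂ) (q : ℂ → ℝ) (p : TP), range p.2 ⊆ O →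
      wt O q p = en (occ (fun z => ENNReal.ofReal (q z)) p) := fun O q p h =>
    indicator_of_mem (s := {p : TP | range p.2 ⊆ O}) h _
  have w2 : ∀ (O : Set ℂ) (q : ℂ → ℝ) (p : TP), ¬ range p.2 ⊆ O → wt O q p = 0 := fun O q p h =>
    indicator_of_notMem (s := {p : TP | range p.2 ⊆ O}) h _
  refine ⟨fun V _ => ⟨add t hs γ V, r V⟩, fun O q _ => ⟨?_, fun h => ?_⟩⟩
  · have e := h1 s (Ioo_subset_Icc_self hs) γ
    by_cases a : range (sub 0 s γ) ⊆ O
    · by_cases b : range (sub s 1 γ) ⊆ O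
      · rw [w1 O q (t, γ) (e.subset.trans (union_subset a b)), w1 O q (_, sub 0 s γ) a,
          w1 O q (_, sub s 1 γ) b, add t hs, en_add]
      · rw [w2 O q (_, sub s 1 γ) b, mul_zero,
          w2 O q (t, γ) fun c => b (subset_union_right.trans (e.superset.trans c))]
    · rw [w2 O q (_, sub 0 s γ) a, zero_mul,
        w2 O q (t, γ) fun c => a (subset_union_left.trans (e.superset.trans c))]
  · have e := (h2 s hs γ h).2.2.1
    by_cases a : range γ ⊆ O
    · rw [w1 O q (t, γ) a, w1 O q (t, rot s γ) (e.subset.trans a), r _ h]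
    · rw [w2 O q (t, γ) a, w2 O q (t, rot s γ) fun c => a (e.superset.trans c)]

end Pool.Agent.P.MP_d66c6d_pr
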